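import Pool.Agent.H46.Ms.Ring

set_option autoImplicit false

namespace Pool.Agent.H46.Ms

open Complex Real Set goldenRatio
open scoped Classical

noncomputable def fb (n : ℤ) (α : O) : ℂ := if Nm α = n then AA α else 0
noncomputable def BB (n : ℤ) : ℂ := ∑' α, (Win (-LL)).indicator (fb n) α

lemma fb_inv (n j : ℤ) (α : O) : fb n ((uu ^ j : Oˣ) * α) = fb n α := by
  simp only [fb, Nm_mul, AA_mul, (upow j).1, (upow j).2.1, one_mul]

lemma BB_has (n : ℤ) (v : ℝ) : HasSum ((Win v).indicator (fb n)) (BB n) := by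
  refine win_ind (fb_inv n) (Summable.hasSum ?_) v
  refine ((win_summ one_lt_two).mul_left (|(n : ℝ)| ^ (2 : ℝ))).of_norm_bounded fun α => ?_
  by_cases hα : α ∈ Win (-LL)
  · simp only [indicator_of_mem hα, fb]
    split_ifs with c
    · have : (0 : ℝ) < |(n : ℝ)| := by
        rw [← c]; exact abs_pos.mpr (by exact_mod_cast Nm_ne hα.1)
      rw [c, ← rpow_add this]; simpa using norm_AA α
    · rw [norm_zero]; positivity
  · simp [indicator_of_notMem hα]

theorem group {κ : ℤ → ℂ} {S : ℂ}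
    (h : HasSum ((Win (-LL)).indicator fun α => AA α * κ (Nm α)) S) :
    HasSum (fun n => BB n * κ n) S := by
  have inj : Function.Injective fun α : O => ((Nm α, α) : ℤ × O) := fun _ _ e => congrArg Prod.snd e
  have : HasSum (fun x : ℤ × O => (Win (-LL)).indicator (fb x.1) x.2 * κ x.1) S := by
    refine (inj.hasSum_iff ?_).mp (h.congr_fun fun α => ?_)
    · rintro ⟨n, α⟩ hx
      have : Nm α ≠ n := fun e => hx ⟨α, by simp [e]⟩
      simp [indicator, fb, this]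
    · simp [indicator, fb]
  exact this.prod_fiberwise fun n => (BB_has n _).mul_right _

theorem BB_summ {σ : ℝ} (h : 1 < σ) : Summable fun n : ℤ => ‖BB n‖ * |(n : ℝ)| ^ (-σ) := by
  have : Summable ((Win (-LL)).indicator fun α => AA α * ((|(Nm α : ℝ)| ^ (-σ) : ℝ) : ℂ)) := by
    refine (win_summ h).of_norm_bounded fun α => ?_
    by_cases hα : α ∈ Win (-LL)
    · simp only [indicator_of_mem hα, norm_mul, norm_real]
      rw [Real.norm_of_nonneg (by positivity)]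
      exact mul_le_of_le_one_left (by positivity) (norm_AA α)
    · simp [indicator_of_notMem hα]
  refine (group (κ := fun n => ((|(n : ℝ)| ^ (-σ) : ℝ) : ℂ)) this.hasSum).summable.norm.congr
    fun n => ?_
  rw [norm_mul, norm_real, Real.norm_of_nonneg (by positivity)]

lemma mulB {ϖ : O} (h : ϖ ≠ 0) (n : ℤ) : HasSum ((Win (-LL)).indicator fun α =>
    if ϖ ∣ α then fb (Nm ϖ * n) α else 0) (AA ϖ * BB n) := by
  refine ((O_inj h).hasSum_iff ?_).mp
    (((BB_has n (-LL - rho ϖ)).mul_left (AA ϖ)).congr_fun fun β => ?_)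
  · intro α hα
    have : ¬ϖ ∣ α := fun ⟨c, e⟩ => hα ⟨c, e.symm⟩
    simp [indicator, this]
  · by_cases hβ : β = 0
    · simp [hβ, Win]
    have e : ϖ * β ∈ Win (-LL) ↔ β ∈ Win (-LL - rho ϖ) := by
      simp only [Win, mem_ofPred_eq, O_mul_ne h hβ, hβ, rho_mul h hβ, ne_eq, not_false_eq_true,
        true_and, mem_Ioc]
      constructor <;> exact fun ⟨a, b⟩ => ⟨by linarith, by linarith⟩
    simp [indicator, e, fb, Nm_mul, AA_mul, Nm_ne h]

lemma BB_eq0 {n : ℤ} (h : (5 : ℤ) ∣ n) : BB n = 0 := by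
  refine (tsum_congr fun α => ?_).trans tsum_zero
  simp only [indicator, fb]
  split_ifs with c d
  · have := (ZMod.intCast_zmod_eq_zero_iff_dvd n 5).mpr h
    rw [← d, Nm_hh] at this
    have k : ∀ x : ZMod 5, x ^ 2 = 0 → lg x = 0 := by decide
    simp [AA, k _ this]
  all_goals rfl

lemma BB_neg (n : ℤ) : BB (-n) = BB n := by
  have := mulB om_ne n
  have d : ∀ α, om ∣ α := fun α => ⟨⟨-1, 1⟩ * α, by
    rw [← mul_assoc, show om * ⟨-1, 1⟩ = 1 by decide, one_mul]⟩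
  simp only [d, if_true, show Nm om = -1 by decide, AA_om, one_mul, neg_mul] at this
  exact (BB_has _ _).unique this

lemma BB_one : BB 1 = 2 := by
  have w : ∀ n : ℤ, n ≠ 0 → (n : O) ∈ Win (-LL) := fun n hn =>
    ⟨fun e => hn (congrArg QuadraticAlgebra.re e), by rw [rho_int]; constructor <;> linarith [LL_pos]⟩
  rw [BB, tsum_eq_sum (s := {((1 : ℤ) : O), ((-1 : ℤ) : O)}), Finset.sum_pair (by decide),
    indicator_of_mem (w _ (by norm_num)), indicator_of_mem (w _ (by norm_num))]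
  · simp only [fb, Nm_int, AA_int, show lg ((1 : ℤ) : ZMod 5) = 1 by decide,
      show lg ((-1 : ℤ) : ZMod 5) = 1 by decide]
    norm_num
  · intro α hα
    simp only [indicator, fb]
    split_ifs with c d
    · refine absurd ?_ hα
      have a1 := cosh_eq c.1 0
      have a2 := exp_le3 (u := rho α) (abs_le.mpr ⟨c.2.1.le, by linarith [c.2.2]⟩)
      rw [zero_add, Real.cosh_eq, neg_zero, Real.exp_zero, mul_one, mul_one, sq_sum, d] at a1
      have a3 : (2 * α.re ^ 2 + 2 * α.re * α.im + 3 * α.im ^ 2 : ℝ) ≤ 6 := by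
        rw [a1]; norm_num; linarith
      have a4 : 2 * α.re ^ 2 + 2 * α.re * α.im + 3 * α.im ^ 2 ≤ 6 := by exact_mod_cast a3
      obtain ⟨a, b⟩ := α
      simp only [Nm] at d a4
      have b1 : b ^ 2 ≤ 0 := by nlinarith
      obtain rfl : b = 0 := by nlinarith
      have : a = 1 ∨ a = -1 := by simpa using d
      rcases this with rfl | rfl <;> decide
    all_goals rfl

lemma int_dvd {p : ℤ} {α : O} : (p : O) ∣ α ↔ p ∣ α.re ∧ p ∣ α.im :=
  ⟨fun ⟨c, e⟩ => by simp [e], fun ⟨⟨a, ha⟩, b, hb⟩ => ⟨⟨a, b⟩, by ext <;> simp [ha, hb]⟩⟩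

lemma mulP {p : ℤ} (h : p ≠ 0) (n : ℤ) : HasSum ((Win (-LL)).indicator fun α =>
    if (p : O) ∣ α then fb (p * n) α else 0) (if p ∣ n then lg p * BB (n / p) else 0) := by
  split_ifs with c
  · obtain ⟨n, rfl⟩ := c
    have := mulB (ϖ := p) (fun e => h (congrArg QuadraticAlgebra.re e)) n
    rwa [Int.mul_ediv_cancel_left _ h, ← AA_int, ← mul_assoc, ← pow_two, ← Nm_int]
  · refine hasSum_zero.congr_fun fun α => ?_
    simp only [indicator, fb]
    split_ifs with _ d e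
    · obtain ⟨β, rfl⟩ := d
      rw [Nm_mul, Nm_int, pow_two, mul_assoc] at e
      exact absurd ⟨_, (mul_left_cancel₀ h e).symm⟩ c
    all_goals rfl

lemma exists_pi {p : ℕ} (hp : p.Prime) {r : ℤ} (hr : (p : ℤ) ∣ r ^ 2 + r - 1) :
    ∃ ϖ : O, Nm ϖ = p := by
  have p0 : (0 : ℝ) < p := by exact_mod_cast hp.pos
  obtain ⟨j, k, k0, k1, k2⟩ := exists_int_int_abs_mul_sub_le ((r : ℝ) / p) (Nat.sqrt_pos.mpr hp.pos)
  have s1 : p.sqrt ^ 2 < p := lt_of_le_of_ne (Nat.sqrt_le' p) fun e =>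
    hp.prime.not_isSquare ⟨p.sqrt, by rw [← pow_two, e]⟩
  have s2 : (p : ℝ) < (p.sqrt + 1) ^ 2 := by exact_mod_cast Nat.lt_succ_sqrt' p
  have a1 : k ^ 2 < p := lt_of_le_of_lt (pow_le_pow_left₀ k0.le k1 2) (by exact_mod_cast s1)
  have a2 : (k * r - j * p) ^ 2 < p := by
    have b1 : ((k * r - j * p : ℤ) : ℝ) = (k * (r / p) - j) * p := by push_cast; field_simp
    have b2 : |((k * r - j * p : ℤ) : ℝ)| ≤ p / (p.sqrt + 1) := by
      rw [b1, abs_mul, abs_of_pos p0, div_eq_inv_mul (p : ℝ) (_ + 1), ← one_div]; gcongr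
    have b3 : ((k * r - j * p : ℤ) : ℝ) ^ 2 ≤ (p / (p.sqrt + 1)) ^ 2 := by
      rw [← sq_abs]; gcongr
    have b4 : ((p : ℝ) / (p.sqrt + 1)) ^ 2 < p := by
      rw [div_pow, div_lt_iff₀ (by positivity), pow_two]; gcongr
    exact_mod_cast b3.trans_lt b4
  have a3 : (p : ℤ) ∣ Nm ⟨k * r - j * p, k⟩ := by
    obtain ⟨c, hc⟩ := hr
    exact ⟨k ^ 2 * c - 2 * k * r * j + j ^ 2 * p - j * k, by
      simp only [Nm]; linear_combination k ^ 2 * hc⟩
  have a4 : Nm ⟨k * r - j * p, k⟩ ≠ 0 := Nm_ne fun e => k0.ne' (congrArg QuadraticAlgebra.im e)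
  obtain ⟨c, hc⟩ := a3
  have p1 : (0 : ℤ) < p := by exact_mod_cast hp.pos
  have a5 : p * c < p * 2 ∧ p * -2 < p * c := by
    rw [← hc]; simp only [Nm]
    constructor <;> nlinarith [sq_nonneg (k * r - j * p - k), sq_nonneg (k * r - j * p + k)]
  have a6 := lt_of_mul_lt_mul_left a5.1 p1.le
  have a7 := lt_of_mul_lt_mul_left a5.2 p1.le
  interval_cases c
  · exact ⟨om * _, by rw [Nm_mul, hc, show Nm om = -1 by decide]; ring⟩
  · exact absurd (by simpa using hc) a4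
  · exact ⟨_, by simpa using hc⟩

theorem hecke {p : ℕ} (hp : p.Prime) (h5 : p ≠ 5) : ∃ l : ℂ, ∀ n : ℤ,
    BB (p * n) + (if (p : ℤ) ∣ n then BB (n / p) else 0) = l * BB n := by
  have p0 : (p : ℤ) ≠ 0 := by exact_mod_cast hp.ne_zero
  have pp : Prime (p : ℤ) := Nat.prime_iff_prime_int.mp hp
  have c5 : IsCoprime (p : ℤ) 5 := Nat.isCoprime_iff_coprime (n := 5).mpr
    ((Nat.coprime_primes hp (by norm_num)).mpr h5)
  have n5 : ((p : ℤ) : ZMod 5) ≠ 0 := fun e => by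
    have := c5.isUnit_of_dvd' ((ZMod.intCast_zmod_eq_zero_iff_dvd _ 5).mp e) dvd_rfl
    norm_num [Int.isUnit_iff] at this
  have k1 : ∀ α : O, (p : ℤ) ∣ Nm α → (p : ℤ) ∣ α.im → ((p : ℤ) : O) ∣ α := fun α h1 h2 =>
    int_dvd.mpr ⟨pp.dvd_of_dvd_pow (n := 2) (by
      have := (h1.sub (h2.mul_left α.re)).add (h2.mul_left α.im)
      rwa [show Nm α - α.re * α.im + α.im * α.im = α.re ^ 2 by simp only [Nm]; ring] at this), h2⟩
  by_cases hr : ∃ r : ℤ, (p : ℤ) ∣ r ^ 2 + r - 1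
  · obtain ⟨r, hr⟩ := hr
    obtain ⟨ϖ, hϖ⟩ := exists_pi hp hr
    set ϖ' : O := ⟨ϖ.re + ϖ.im, -ϖ.im⟩ with hϖ'
    have n' : Nm ϖ' = p := by rw [← hϖ]; simp only [Nm, hϖ']; ring
    have m : ϖ * ϖ' = ((p : ℤ) : O) := by
      rw [← hϖ]; ext <;> simp [hϖ', Nm, pow_two] <;> ring
    have z : ϖ ≠ 0 := by rintro rfl; exact p0 hϖ.symm
    have z' : ϖ' ≠ 0 := fun e => by rw [e] at n'; exact p0 n'.symm
    have l1 : lg ((p : ℤ) : ZMod 5) = 1 := by
      have k : ∀ x : ZMod 5, x ^ 2 ≠ 0 → lg (x ^ 2) = 1 := by decide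
      rw [← hϖ, Nm_hh] at n5 ⊢
      exact k _ n5
    have cop : IsCoprime ϖ ϖ' := by
      have b1 : ¬(p : ℤ) ∣ ϖ.im := fun e => by
        obtain ⟨β, e2⟩ := k1 ϖ (hϖ ▸ dvd_rfl) e
        have := congrArg Nm e2
        rw [Nm_mul, Nm_int, hϖ, pow_two, mul_assoc] at this
        exact pp.not_dvd_one ⟨_, mul_left_cancel₀ p0 ((mul_one _).trans this)⟩
      obtain ⟨x, y, e⟩ := c5.mul_right ((pp.coprime_iff_not_dvd.mpr b1).pow_right (n := 2))
      have b2 : (ϖ - ϖ') ^ 2 = ((5 * ϖ.im ^ 2 : ℤ) : O) := by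
        ext <;> simp [hϖ', pow_two, QuadraticAlgebra.re_ofNat, QuadraticAlgebra.im_ofNat] <;> ring
      have b3 : ((x * p + y * (5 * ϖ.im ^ 2) : ℤ) : O) = 1 := by rw [e]; simp
      rw [Int.cast_add, Int.cast_mul, Int.cast_mul, ← b2, ← m] at b3
      exact ⟨x * ϖ' + y * ϖ - 2 * y * ϖ', y * ϖ', by linear_combination b3⟩
    refine ⟨AA ϖ + AA ϖ', fun n => ?_⟩
    have := ((mulB z n).add (mulB z' n)).sub (mulP p0 n)
    rw [hϖ, n', l1] at this
    have e := (BB_has (p * n) (-LL)).unique (this.congr_fun fun α => ?_)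
    · rw [e]; split_ifs <;> push_cast <;> ring
    · by_cases hα : α ∈ Win (-LL)
      swap
      · simp [indicator_of_notMem hα]
      simp only [indicator_of_mem hα]
      by_cases hN : Nm α = p * n
      swap
      · simp [fb, hN]
      have d1 : (ϖ ∣ α ∧ ϖ' ∣ α) ↔ ((p : ℤ) : O) ∣ α := by
        rw [← m]
        exact ⟨fun h => cop.mul_dvd h.1 h.2, fun h => ⟨dvd_of_mul_right_dvd h, dvd_of_mul_left_dvd h⟩⟩
      have d2 : ϖ ∣ α ∨ ϖ' ∣ α := by
        have : (p : ℤ) ∣ (α * ϖ').im * (α * ϖ).im := ⟨α.im ^ 2 - ϖ.im ^ 2 * n, by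
          simp only [Nm] at hN hϖ
          simp [hϖ']
          linear_combination α.im ^ 2 * hϖ - ϖ.im ^ 2 * hN⟩
        refine (pp.dvd_or_dvd this).imp (fun h => ?_) fun h => ?_
        · obtain ⟨β, e⟩ := k1 _ (by rw [Nm_mul, n']; simp) h
          exact ⟨β, O_inj z' (by simp only; rw [mul_comm, e, ← m]; ring)⟩
        · obtain ⟨β, e⟩ := k1 _ (by rw [Nm_mul, hϖ]; simp) h
          exact ⟨β, O_inj z (by simp only; rw [mul_comm, e, ← m]; ring)⟩
      rw [← d1]
      by_cases c1 : ϖ ∣ α <;> by_cases c2 : ϖ' ∣ α <;> simp_all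
  · push Not at hr
    have := Fact.mk hp
    have l1 : lg ((p : ℤ) : ZMod 5) = -1 := by
      by_cases h2 : p = 2
      · subst h2; decide
      have k : ∀ x : ZMod 5, ¬IsSquare x → lg x = -1 := by decide
      refine k _ fun hs => ?_
      have : Fact (Nat.Prime 5) := ⟨by norm_num⟩
      obtain ⟨y, hy⟩ := (ZMod.exists_sq_eq_prime_iff_of_mod_four_eq_one (p := 5) (q := p) rfl h2).mp
        (by exact_mod_cast hs)
      obtain ⟨r, e⟩ := ZMod.intCast_surjective ((y - 1) / 2)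
      refine hr r ((ZMod.intCast_zmod_eq_zero_iff_dvd _ p).mp ?_)
      have t : (2 : ZMod p) ≠ 0 := fun e => h2 ((Nat.prime_dvd_prime_iff_eq hp Nat.prime_two).mp
        ((ZMod.natCast_eq_zero_iff 2 p).mp e))
      push_cast at hy ⊢
      rw [e]; field_simp; linear_combination -hy
    refine ⟨0, fun n => ?_⟩
    have := mulP p0 n
    rw [l1] at this
    have e := (BB_has (p * n) (-LL)).unique (this.congr_fun fun α => ?_)
    · rw [e]; split_ifs <;> push_cast <;> ring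
    · refine congrFun (congrArg _ (funext fun α => ?_)) α
      by_cases hN : Nm α = p * n
      swap
      · simp [fb, hN]
      refine (if_pos (k1 α ⟨_, hN⟩ ?_)).symm
      by_contra c
      have t : (α.im : ZMod p) ≠ 0 := fun e => c ((ZMod.intCast_zmod_eq_zero_iff_dvd _ p).mp e)
      obtain ⟨r, e⟩ := ZMod.intCast_surjective ((α.re : ZMod p) / (α.im : ZMod p))
      refine hr r ((ZMod.intCast_zmod_eq_zero_iff_dvd _ p).mp ?_)
      have := congrArg (Int.cast : ℤ → ZMod p) hN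
      simp only [Nm] at this
      push_cast at this ⊢
      rw [e]; field_simp
      rw [ZMod.natCast_self] at this
      linear_combination this

end Pool.Agent.H46.Ms
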