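import Mathlib

set_option autoImplicit false

namespace Pool.Agent.H46.Ms

open Complex

/-- `U` (read on the upper half plane) is a nonzero weight-0 Hecke-Maass cusp form for
`Γ₀(N)` with trivial character, Laplace eigenvalue `1/4 + t²` and (unitarily normalised)
`T_p`-eigenvalue `lam p` for every prime `p ∤ N`. -/
structure IsMaass (N : ℕ) (t : ℝ) (U : ℂ → ℂ) (lam : ℕ → ℂ) : Prop where
  smooth : ContDiffOn ℝ (⊤ : ℕ∞) U {z | 0 < z.im}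
  ne_zero : ∃ z : ℂ, 0 < z.im ∧ U z ≠ 0
  invariant : ∀ a b c d : ℤ, a * d - b * c = 1 → (N : ℤ) ∣ c → ∀ z : ℂ, 0 < z.im →
    U ((a * z + b) / (c * z + d)) = U z
  laplace : ∀ z : ℂ, 0 < z.im →
    -(z.im : ℂ) ^ 2 * (deriv (deriv fun x : ℝ => U (z + x)) 0 +
      deriv (deriv fun y : ℝ => U (z + y * I)) 0) = (1 / 4 + (t : ℂ) ^ 2) * U z
  cuspidal : ∀ a b c d : ℤ, a * d - b * c = 1 → ∃ C δ : ℝ, 0 < δ ∧ ∀ z : ℂ, 1 ≤ z.im →
    ‖U ((a * z + b) / (c * z + d))‖ ≤ C * Real.exp (-(δ * z.im))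
  hecke : ∀ p : ℕ, p.Prime → ¬p ∣ N → ∀ z : ℂ, 0 < z.im →
    U (p * z) + ∑ b ∈ Finset.range p, U ((z + b) / p) = (Real.sqrt p : ℂ) * lam p * U z

/-- `L` is an entire function equal, for `Re s > 1`, to the Euler product over `p ∤ N` of the
twist by `χ` of the form with Hecke eigenvalues `lam`. -/
def IsTwistL (N : ℕ) (lam : ℕ → ℂ) {q : ℕ} (χ : DirichletCharacter ℂ q) (L : ℂ → ℂ) : Prop :=
  Differentiable ℂ L ∧ ∀ s : ℂ, 1 < s.re →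
    HasProd (fun p : Nat.Primes => if (p : ℕ) ∣ N then 1 else
      (1 - lam p * χ (p : ℕ) * ((p : ℕ) : ℂ) ^ (-s) +
        χ (p : ℕ) ^ 2 * ((p : ℕ) : ℂ) ^ (-2 * s))⁻¹) (L s)

end Pool.Agent.H46.Ms
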