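import Pool.Agent.H46.Ms.Twist

set_option autoImplicit false

namespace Pool.Agent.H46.Ms

open Complex Real Set MeasureTheory Filter ZMod

variable {q : ℕ} [NeZero q] {χ : DirichletCharacter ℂ q}

lemma ft_iff {d : ℕ} (hd : d ∣ q) : χ.FactorsThrough d ↔
    ∀ a : ℕ, a.Coprime q → (a : ZMod d) = 1 → χ a = 1 := by
  rw [DirichletCharacter.factorsThrough_iff_ker_unitsMap hd]
  refine ⟨fun h a ha e => ?_, fun h x hx => ?_⟩
  · have := h (x := unitOfCoprime a ha) (Units.ext (by simp [unitsMap_val, cast_natCast hd, e]))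
    simpa using congrArg Units.val this
  · have e := congrArg Units.val hx
    refine Units.ext ?_
    simpa using h _ (val_coe_unit_coprime x) (by simpa [unitsMap_val] using e)

lemma BB_sq {n : ℤ} (h : BB n ≠ 0) : ∃ k : ZMod 5, IsUnit k ∧ (n : ZMod 5) = k * k := by
  by_contra c
  refine h ((tsum_congr fun α => ?_).trans tsum_zero)
  simp only [indicator, fb]
  split_ifs with _ d
  · have k : ∀ x : ZMod 5, lg x = 0 ∨ IsUnit x := by decide
    rcases k (hh α) with e | e
    · simp [AA, e]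
    · exact absurd ⟨_, e, by rw [← d, Nm_hh, pow_two]⟩ c
  all_goals rfl

theorem reduce (h1 : χ.IsPrimitive) (h2 : χ.IsQuadratic) : ∃ (q' : ℕ) (_ : NeZero q')
    (χ' : DirichletCharacter ℂ q'), χ'.IsPrimitive ∧ χ'.IsQuadratic ∧ Nat.Coprime 5 q' ∧
      ∀ s n, tm χ s n = tm χ' s n := by
  by_cases h5 : Nat.Coprime 5 q
  · exact ⟨q, inferInstance, χ, h1, h2, h5, fun _ _ => rfl⟩
  obtain ⟨m, rfl⟩ := (Nat.Prime.dvd_iff_not_coprime (by norm_num)).mpr h5
  have m0 : m ≠ 0 := by rintro rfl; exact NeZero.ne (5 * 0) rfl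
  have : NeZero m := ⟨m0⟩
  have pr : ∀ d, d ≠ 0 → χ.FactorsThrough d → 5 * m ≤ d := fun d d0 h =>
    h1 ▸ Nat.le_of_dvd (Nat.pos_of_ne_zero d0) (χ.conductor_dvd_of_mem_conductorSet h)
  have h5 : Nat.Coprime 5 m := by
    by_contra c
    obtain ⟨k, rfl⟩ := (Nat.Prime.dvd_iff_not_coprime (by norm_num)).mpr c
    refine absurd (pr _ m0 ((ft_iff (dvd_mul_left _ _)).mpr fun a ha e => ?_)) (by omega)
    obtain ⟨j, hj⟩ := (intCast_zmod_eq_zero_iff_dvd (a - 1) (5 * k)).mp (by simp [e])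
    have a5 : (a : ZMod (5 * (5 * k))) ^ 5 = 1 := by
      have := (intCast_zmod_eq_zero_iff_dvd (a ^ 5 - 1) (5 * (5 * k))).mpr ⟨j + 10 * k * j ^ 2 +
        50 * k ^ 2 * j ^ 3 + 125 * k ^ 3 * j ^ 4 + 125 * k ^ 4 * j ^ 5, by
          rw [eq_add_of_sub_eq hj]; push_cast; ring⟩
      push_cast at this
      exact sub_eq_zero.mp this
    have b1 := congrArg χ a5
    have b2 := sq1 h2 ((isUnit_iff_coprime a _).mpr ha)
    rw [map_pow, map_one] at b1
    linear_combination b1 - (χ a ^ 3 + χ a) * b2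
  set e := (chineseRemainder h5).symm with he
  have en : ∀ a : ℕ, e (a, a) = a := fun a => map_natCast e a
  let χ' : DirichletCharacter ℂ m := ⟨⟨⟨fun x => χ (e (1, x)), by
    rw [show ((1, 1) : ZMod 5 × ZMod m) = 1 from rfl, map_one, map_one]⟩, fun x y => by
      simp only [← map_mul, Prod.mk_mul_mk, one_mul]⟩, fun x hx => χ.map_nonunit fun h =>
        hx (Prod.isUnit_iff.mp ((isUnit_map_iff e _).mp h)).2⟩
  have ap : ∀ x, χ' x = χ (e (1, x)) := fun _ => rfl
  refine ⟨m, this, χ', ?_, fun x => h2 _, h5, fun s n => ?_⟩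
  · have d := χ'.conductor_dvd_level
    have f := (ft_iff d).mp χ'.factorsThrough_conductor
    refine Nat.le_antisymm (Nat.le_of_dvd (Nat.pos_of_ne_zero m0) d) ?_
    have := pr (5 * χ'.conductor) (by simp [χ'.conductor_ne_zero])
      ((ft_iff (Nat.mul_dvd_mul_left 5 d)).mpr fun a ha h => by
        have b1 := congrArg (castHom (dvd_mul_right 5 _) (ZMod 5)) h
        have b2 := congrArg (castHom (dvd_mul_left _ 5) (ZMod χ'.conductor)) h
        rw [map_natCast, map_one] at b1 b2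
        rw [← en, b1, ← ap, f a (Nat.Coprime.coprime_mul_left_right ha) b2])
    omega
  · by_cases hb : BB n = 0
    · simp [tm, hb]
    obtain ⟨k, ku, hk⟩ := BB_sq hb
    have := sq1 h2 ((isUnit_map_iff e _).mpr (Prod.isUnit_iff.mpr ⟨ku, isUnit_one⟩) :
      IsUnit (e (k, 1)))
    rw [Int.cast_natCast] at hk
    rw [tm, tm, ap, ← en, hk, ← one_mul (χ (e (1, _))), ← this, pow_two]
    simp only [← map_mul, Prod.mk_mul_mk, one_mul, mul_one]

theorem core' (h1 : χ.IsPrimitive) (h2 : χ.IsQuadratic) :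
    ∃ L : ℂ → ℂ, Differentiable ℂ L ∧ L (1 / 2) = 0 ∧ ∀ s : ℂ, 1 < s.re →
      L s = ∑' n, tm χ s n := by
  obtain ⟨q', _, χ', a, b, c, d⟩ := reduce h1 h2
  simpa only [d] using core a b c

noncomputable def aa (n : ℕ) : ℂ := BB n / 2

lemma aa_one : aa 1 = 1 := by simp [aa, BB_one]

lemma hecke' {p : ℕ} (hp : p.Prime) (h5 : p ≠ 5) (n : ℤ) :
    BB (p * n) + (if (p : ℤ) ∣ n then BB (n / p) else 0) = aa p * BB n := by
  obtain ⟨l, hl⟩ := hecke hp h5
  have := hl 1
  rw [if_neg (Nat.prime_iff_prime_int.mp hp).not_dvd_one, BB_one, mul_one] at this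
  rw [hl, aa]; congr 1; linear_combination -this / 2

lemma aa_rec {p : ℕ} (hp : p.Prime) (n : ℕ) :
    aa (p * (p * n)) = aa p * aa (p * n) - if p = 5 then 0 else aa n := by
  split_ifs with h5
  · subst h5; simp [aa, BB_eq0]
  · have := hecke' hp h5 (p * n)
    rw [if_pos (dvd_mul_right _ _), Int.mul_ediv_cancel_left _ (by exact_mod_cast hp.ne_zero)]
      at this
    simp only [aa] at *; push_cast; linear_combination this / 2

lemma aa_pp {p : ℕ} (hp : p.Prime) {m : ℕ} (hm : ¬p ∣ m) (k : ℕ) :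
    aa (p ^ k * m) = aa (p ^ k) * aa m := by
  induction k using Nat.twoStepInduction with
  | zero => simp [aa_one]
  | one =>
    by_cases h5 : p = 5
    · subst h5; simp [aa, BB_eq0]
    have := hecke' hp h5 m
    rw [if_neg (by exact_mod_cast hm)] at this
    simp only [aa, pow_one] at *; push_cast; linear_combination this / 2
  | more k i1 i2 =>
    rw [pow_succ', mul_assoc] at i2
    rw [pow_succ', pow_succ', mul_assoc, mul_assoc, aa_rec hp, aa_rec hp, i2]
    split_ifs
    · ring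
    · rw [i1]; ring

lemma aa_mul (n : ℕ) : ∀ m, n.Coprime m → aa (n * m) = aa n * aa m := by
  induction n using Nat.recOnPrimePow with
  | zero => intro m h; simp [(Nat.coprime_zero_left m).mp h, aa_one]
  | one => simp [aa_one]
  | prime_pow_mul a p k hp ha hk ih =>
    intro m h
    have : ¬p ∣ m := (Nat.Prime.coprime_iff_not_dvd hp).mp
      (h.coprime_dvd_left ((dvd_pow_self p hk.ne').mul_right a))
    rw [mul_assoc, aa_pp hp (hp.not_dvd_mul ha this), aa_pp hp ha,
      ih m (h.coprime_dvd_left (dvd_mul_left _ _)), mul_assoc]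

omit [NeZero q] in
theorem euler (χ : DirichletCharacter ℂ q) {s : ℂ} (hs : 1 < s.re) :
    HasProd (fun p : Nat.Primes => if (p : ℕ) ∣ 25 then 1 else
      (1 - aa p * χ p * (p : ℂ) ^ (-s) + χ p ^ 2 * (p : ℂ) ^ (-2 * s))⁻¹) (∑' n, tm χ s n) := by
  have t : ∀ n, tm χ s n = aa n * χ n * (n : ℂ) ^ (-s) := fun _ => rfl
  have sm := tm_summ χ hs
  have := EulerProduct.eulerProduct_hasProd (f := tm χ s) (by simp [t, aa_one])
    (fun {m n} h => by rw [t, t, t, aa_mul _ _ h, Nat.cast_mul, map_mul, Nat.cast_mul,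
      natCast_mul_natCast_cpow]; ring) sm (by simp [tm, BB0])
  refine this.congr_fun fun p => Eq.symm ?_
  obtain ⟨p, hp⟩ := p
  have s1 : Summable fun e => tm χ s (p ^ e) :=
    sm.of_norm.comp_injective (Nat.pow_right_injective hp.two_le)
  have s2 := (summable_nat_add_iff 1).mpr s1
  have e1 := s1.tsum_eq_zero_add
  have e2 := s2.tsum_eq_zero_add
  have r : ∀ e, tm χ s (p ^ (e + 1 + 1)) = tm χ s p * tm χ s (p ^ (e + 1)) -
      (if p = 5 then 0 else χ p ^ 2 * (p : ℂ) ^ (-2 * s)) * tm χ s (p ^ e) := fun e => by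
    rw [pow_succ', pow_succ', t, t, t, t, aa_rec hp, show -2 * s = -s + -s by ring,
      cpow_add _ _ (by exact_mod_cast hp.ne_zero)]
    have cp : ∀ m n : ℕ, ((m * n : ℕ) : ℂ) ^ (-s) = (m : ℂ) ^ (-s) * (n : ℂ) ^ (-s) :=
      fun m n => by rw [Nat.cast_mul, natCast_mul_natCast_cpow]
    simp only [cp]
    simp only [Nat.cast_mul, map_mul]
    split_ifs <;> ring
  simp only [r] at e2
  rw [(s2.mul_left _).tsum_sub (s1.mul_left _), tsum_mul_left, tsum_mul_left] at e2
  simp only [pow_zero, zero_add, pow_one, show tm χ s 1 = 1 by simp [t, aa_one]] at e1 e2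
  have h25 : p ∣ 25 ↔ p = 5 := by
    rw [show 25 = 5 ^ 2 by norm_num, hp.prime.dvd_pow_iff_dvd two_ne_zero,
      Nat.prime_dvd_prime_iff_eq hp (by norm_num)]
  simp only [h25]
  split_ifs at e2 ⊢ with h5
  · subst h5
    rw [e1, e2]; simp [t, aa, BB_eq0]
  · refine eq_inv_of_mul_eq_one_left ?_
    rw [← t]
    linear_combination (1 - tm χ s p) * e1 + e2

theorem UU_ne : ∃ z : ℂ, 0 < z.im ∧ UU z ≠ 0 := by
  by_contra! h
  have z : ∀ y : ℝ, 0 < y → Fc μ0 m0 w0 (fun x => (fun _ => (1 : ℂ)) x.1 * c0 x)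
      (I * y / (1 : ℝ)) = 0 := fun y hy => by
    have := h (I * y) (by simpa using hy)
    simpa [UU, Uc, hy.ne', hy.le] using this
  have v : ∀ x : ℝ, 1 < x → LSeries aa x = 0 := fun x hx => by
    have := mel_val (κ := fun _ => 1) one_pos (σ := x) hx.le (by simpa using BB_summ hx)
    rw [mellin, setIntegral_congr_fun measurableSet_Ioi (g := fun _ => 0)
      (fun y hy => by simp only [z y hy, smul_zero]), integral_zero,
      nat_sum (c := 2) (tm_summ (1 : DirichletCharacter ℂ 1) (s := x) hx).of_norm (by simp [BB0])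
      (fun n => by rw [ipow, tm, MulChar.one_apply (isUnit_of_subsingleton _)]; ring)
      fun n => by rw [BB_neg, Int.cast_neg, abs_neg, ipow, tm,
        MulChar.one_apply (isUnit_of_subsingleton _)]; ring] at this
    have g1 := Complex.Gamma_ne_zero_of_re_pos (s := x / 2 + I * tt / 2) (by simp; linarith)
    have g2 := Complex.Gamma_ne_zero_of_re_pos (s := x / 2 - I * tt / 2) (by simp; linarith)
    have g3 : ((1 / π : ℝ) : ℂ) ^ (x : ℂ) ≠ 0 := cpow_ne_zero_iff.mpr (Or.inl (by simp))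
    simp only [zero_eq_mul, mul_eq_zero, div_eq_zero_iff, g1, g2, g3, two_ne_zero, false_or,
      or_self] at this
    rw [← this, LSeries]
    refine tsum_congr fun n => ?_
    rw [LSeries.term_def₀ (by simp [aa, BB0]), tm, MulChar.one_apply (isUnit_of_subsingleton _),
      mul_one, aa]
  have s : LSeriesSummable aa 2 := (tm_summ (1 : DirichletCharacter ℂ 1) (s := 2)
    (by norm_num)).of_norm.congr fun n => by
      rw [LSeries.term_def₀ (by simp [aa, BB0]), tm, MulChar.one_apply (isUnit_of_subsingleton _),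
        mul_one, aa]
  rcases LSeries_eventually_eq_zero_iff'.mp ((eventually_gt_atTop 1).mono v) with h | h
  · exact one_ne_zero (aa_one.symm.trans (h 1 one_ne_zero))
  · have := s.abscissaOfAbsConv_le
    rw [h] at this
    simp at this

end Pool.Agent.H46.Ms
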