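import Mathlib

set_option autoImplicit false

namespace Pool.Agent.H46.Ms

open Complex Real MeasureTheory Set Filter Topology

variable {X : Type*} [MeasurableSpace X] (μ : Measure X) (m w : X → ℝ)

def Adm (c : X → ℂ) : Prop :=
  AEStronglyMeasurable c μ ∧ ∀ δ : ℝ, 0 < δ → Integrable (fun ξ => ‖c ξ‖ * rexp (-δ * w ξ)) μ

noncomputable def ex (ξ : X) (z : ℂ) : ℂ := cexp (I * m ξ * z.re - w ξ * z.im)

noncomputable def Fc (c : X → ℂ) (z : ℂ) : ℂ := ∫ ξ, c ξ * ex m w ξ z ∂μ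

structure Wt : Prop where
  mm : Measurable m
  mw : Measurable w
  le : ∀ ξ, |m ξ| ≤ w ξ

variable {μ m w}

omit [MeasurableSpace X] in
lemma norm_ex (ξ : X) (z : ℂ) : ‖ex m w ξ z‖ = rexp (-z.im * w ξ) := by
  rw [ex, Complex.norm_exp]; congr 1; simp; ring

lemma Wt.mex (h : Wt m w) (z : ℂ) : Measurable fun ξ => ex m w ξ z := by
  have := h.mm; have := h.mw
  unfold ex; fun_prop

lemma Wt.w0 (h : Wt m w) (ξ : X) : 0 ≤ w ξ := (abs_nonneg _).trans (h.le ξ)

lemma Adm.int {c : X → ℂ} (h : Wt m w) (hc : Adm μ w c) {z : ℂ} (hz : 0 < z.im) :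
    Integrable (fun ξ => c ξ * ex m w ξ z) μ :=
  (hc.2 _ hz).mono' (hc.1.mul (h.mex z).aestronglyMeasurable)
    (ae_of_all _ fun ξ => by rw [norm_mul, norm_ex])

lemma Adm.mul {c g : X → ℂ} (h : Wt m w) (hc : Adm μ w c) (hg : Measurable g) (K : ℝ)
    (hK : ∀ ξ, ‖g ξ‖ ≤ K * (1 + w ξ)) : Adm μ w fun ξ => g ξ * c ξ := by
  refine ⟨hg.aestronglyMeasurable.mul hc.1, fun δ hδ => ?_⟩
  have := h.mw
  refine ((hc.2 (δ / 2) (by positivity)).const_mul (|K| * (1 + 2 / δ))).mono'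
    ((hg.aestronglyMeasurable.mul hc.1).norm.mul (by fun_prop)) (ae_of_all _ fun ξ => ?_)
  have w0 := h.w0 ξ
  have a1 : δ / 2 * w ξ + 1 ≤ rexp (δ / 2 * w ξ) := Real.add_one_le_exp _
  have a2 : 1 + w ξ ≤ (1 + 2 / δ) * rexp (δ / 2 * w ξ) := by
    have : (1 + 2 / δ) * (δ / 2 * w ξ + 1) = 1 + w ξ + (δ / 2 * w ξ + 2 / δ) := by
      field_simp; ring
    have := mul_le_mul_of_nonneg_left a1 (show 0 ≤ 1 + 2 / δ by positivity)
    have : 0 ≤ δ / 2 * w ξ + 2 / δ := by positivity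
    linarith
  have a3 : ‖g ξ‖ ≤ |K| * ((1 + 2 / δ) * rexp (δ / 2 * w ξ)) :=
    (hK ξ).trans (mul_le_mul (le_abs_self K) a2 (by positivity) (abs_nonneg _))
  rw [Real.norm_of_nonneg (by positivity), norm_mul]
  calc _ ≤ |K| * ((1 + 2 / δ) * rexp (δ / 2 * w ξ)) * ‖c ξ‖ * rexp (-δ * w ξ) := by gcongr
    _ = _ := by
      rw [show -(δ / 2) * w ξ = δ / 2 * w ξ + -δ * w ξ by ring, Real.exp_add]; ring

lemma Adm.dx {c : X → ℂ} (h : Wt m w) (hc : Adm μ w c) : Adm μ w fun ξ => I * m ξ * c ξ :=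
  hc.mul h (by have := h.mm; fun_prop) 1 fun ξ => by simpa using (h.le ξ).trans (by linarith)

lemma Adm.dy {c : X → ℂ} (h : Wt m w) (hc : Adm μ w c) : Adm μ w fun ξ => -w ξ * c ξ :=
  hc.mul h (by have := h.mw; fun_prop) 1 fun ξ => by simp [abs_of_nonneg (h.w0 ξ)]

noncomputable def lin (a b : ℂ) : ℂ →L[ℝ] ℂ := reCLM.smulRight a + imCLM.smulRight b

lemma lin_apply (a b z : ℂ) : lin a b z = z.re * a + z.im * b := by simp [lin]

lemma norm_lin (a b : ℂ) : ‖lin a b‖ ≤ ‖a‖ + ‖b‖ := by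
  refine ContinuousLinearMap.opNorm_le_bound _ (by positivity) fun z => ?_
  rw [lin_apply]
  refine (norm_add_le _ _).trans ?_
  simp only [norm_mul, norm_real, Real.norm_eq_abs]
  nlinarith [abs_re_le_norm z, abs_im_le_norm z, norm_nonneg a, norm_nonneg b]

noncomputable def linL : ℂ × ℂ →L[ℝ] (ℂ →L[ℝ] ℂ) :=
  LinearMap.toContinuousLinearMap
    { toFun := fun x => lin x.1 x.2
      map_add' := fun x y => by ext1 z; simp [lin_apply]; ring
      map_smul' := fun r x => by ext1 z; simp [lin_apply]; ring }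

lemma linL_apply (a b : ℂ) : linL (a, b) = lin a b := rfl

omit [MeasurableSpace X] in
lemma ex_der (ξ : X) (c z : ℂ) : HasFDerivAt (fun z => c * ex m w ξ z)
    (lin (I * m ξ * c * ex m w ξ z) (-w ξ * c * ex m w ξ z)) z := by
  have a1 : HasFDerivAt (fun z : ℂ => I * m ξ * z.re - w ξ * z.im) (lin (I * m ξ) (-w ξ)) z := by
    refine ((lin (I * m ξ) (-w ξ)).hasFDerivAt (x := z)).congr_of_eventuallyEq
      (Eventually.of_forall fun v => ?_)
    simp only [lin_apply]; ring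
  refine (a1.cexp.const_mul c).congr_fderiv ?_
  ext1 v
  simp [lin_apply, ex]; ring

theorem Adm.der {c : X → ℂ} (h : Wt m w) (hc : Adm μ w c) {z : ℂ} (hz : 0 < z.im) :
    HasFDerivAt (Fc μ m w c)
      (lin (Fc μ m w (fun ξ => I * m ξ * c ξ) z) (Fc μ m w (fun ξ => -w ξ * c ξ) z)) z := by
  have i1 := (hc.dx h).int h hz
  have i2 := (hc.dy h).int h hz
  have m1 := linL.continuous.comp_aestronglyMeasurable (i1.1.prodMk i2.1)
  simp only [linL_apply] at m1
  have key := hasFDerivAt_integral_of_dominated_of_fderiv_le (μ := μ) (𝕜 := ℝ)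
    (F := fun z ξ => c ξ * ex m w ξ z)
    (F' := fun z ξ => lin (I * m ξ * c ξ * ex m w ξ z) (-w ξ * c ξ * ex m w ξ z))
    (x₀ := z) (s := {v | z.im / 2 < v.im})
    (bound := fun ξ => ‖I * m ξ * c ξ‖ * rexp (-(z.im / 2) * w ξ) +
      ‖-w ξ * c ξ‖ * rexp (-(z.im / 2) * w ξ))
    ((isOpen_lt continuous_const continuous_im).mem_nhds (by simpa using hz))
    (Eventually.of_forall fun v => hc.1.mul (h.mex v).aestronglyMeasurable) (hc.int h hz) m1
    (ae_of_all _ fun ξ v hv => (norm_lin _ _).trans (by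
      have : rexp (-v.im * w ξ) ≤ rexp (-(z.im / 2) * w ξ) :=
        Real.exp_le_exp.mpr (by nlinarith [h.w0 ξ, show z.im / 2 < v.im from hv])
      rw [norm_mul, norm_mul _ (ex m w ξ v), norm_ex]
      gcongr))
    (((hc.dx h).2 _ (by positivity)).add ((hc.dy h).2 _ (by positivity)))
    (ae_of_all _ fun ξ v _ => ex_der ξ _ v)
  have := linL.integral_comp_comm (i1.prodMk i2)
  rw [integral_pair i1 i2] at this
  simp only [linL_apply] at this
  rw [this] at key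
  exact key

theorem Adm.smooth (h : Wt m w) (n : ℕ) : ∀ {c : X → ℂ}, Adm μ w c →
    ContDiffOn ℝ n (Fc μ m w c) {z | 0 < z.im} := by
  have o : IsOpen {z : ℂ | 0 < z.im} := isOpen_lt continuous_const continuous_im
  induction n with
  | zero => exact fun hc => contDiffOn_zero.mpr fun z hz =>
      (hc.der h (z := z) hz).continuousAt.continuousWithinAt
  | succ n ih =>
    intro c hc
    rw [Nat.cast_succ, contDiffOn_succ_iff_fderiv_of_isOpen o]
    have d : DifferentiableOn ℝ (Fc μ m w c) {z | 0 < z.im} := fun z hz =>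
      (hc.der h (z := z) hz).differentiableAt.differentiableWithinAt
    have k := (linL.contDiff (n := n)).comp_contDiffOn ((ih (hc.dx h)).prodMk (ih (hc.dy h)))
    have k2 : ContDiffOn ℝ n (fderiv ℝ (Fc μ m w c)) {z | 0 < z.im} := by
      apply k.congr
      intro z hz
      rw [(hc.der h (z := z) hz).fderiv, Function.comp_apply, linL_apply]
    constructor
    · exact d
    constructor
    · simp
    · exact k2

lemma Adm.line {c : X → ℂ} (h : Wt m w) (hc : Adm μ w c) (z v : ℂ) (t : ℝ)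
    (hz : 0 < (z + t * v).im) : HasDerivAt (fun t : ℝ => Fc μ m w c (z + t * v))
      (v.re * Fc μ m w (fun ξ => I * m ξ * c ξ) (z + t * v) +
        v.im * Fc μ m w (fun ξ => -w ξ * c ξ) (z + t * v)) t := by
  have a1 : HasDerivAt (fun t : ℝ => z + t * v) v t := by
    simpa using ((hasDerivAt_id t).ofReal_comp.mul_const v).const_add z
  have := (hc.der h hz).comp_hasDerivAt t a1
  rwa [lin_apply] at this

/-- the weighted function -/
noncomputable def Uc (μ : Measure X) (m w : X → ℝ) (c : X → ℂ) (z : ℂ) : ℂ :=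
  √z.im * Fc μ m w c z

theorem Adm.smoothU {c : X → ℂ} (h : Wt m w) (hc : Adm μ w c) :
    ContDiffOn ℝ (⊤ : ℕ∞) (Uc μ m w c) {z | 0 < z.im} := by
  rw [contDiffOn_infty]
  intro n
  have a : ContDiffOn ℝ n (fun z : ℂ => √z.im) {z | 0 < z.im} :=
    imCLM.contDiff.contDiffOn.sqrt fun z hz => ne_of_gt hz
  have b : ContDiffOn ℝ n (fun z : ℂ => ((√z.im : ℝ) : ℂ)) {z | 0 < z.im} :=
    ofRealCLM.contDiff.comp_contDiffOn a
  exact b.mul (hc.smooth h n)

theorem Adm.lap {c : X → ℂ} (h : Wt m w) (hc : Adm μ w c) {z : ℂ} (hz : 0 < z.im) :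
    (z.im : ℂ) ^ 2 * (deriv (deriv fun t : ℝ => Uc μ m w c (z + t)) 0 +
      deriv (deriv fun t : ℝ => Uc μ m w c (z + t * I)) 0) = √z.im *
      (∫ ξ, ((z.im ^ 2 * (w ξ ^ 2 - m ξ ^ 2) - z.im * w ξ) * c ξ) * ex m w ξ z ∂μ) -
      1 / 4 * Uc μ m w c z := by
  have x1 : ∀ {c : X → ℂ}, Adm μ w c → ∀ t : ℝ, HasDerivAt (fun t : ℝ => Uc μ m w c (z + t))
      (Uc μ m w (fun ξ => I * m ξ * c ξ) (z + t)) t := fun hc t => by
    simpa [Uc] using (hc.line h z 1 t (by simpa using hz)).const_mul (√z.im : ℂ)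
  have x2 : deriv (deriv fun t : ℝ => Uc μ m w c (z + t)) 0 =
      Uc μ m w (fun ξ => I * m ξ * (I * m ξ * c ξ)) z := by
    rw [show (deriv fun t : ℝ => Uc μ m w c (z + t)) = _ from funext fun t => (x1 hc t).deriv]
    simpa using (x1 (hc.dx h) 0).deriv
  have y0 : ∀ {c : X → ℂ}, Adm μ w c → ∀ t : ℝ, 0 < z.im + t →
      HasDerivAt (fun t : ℝ => Fc μ m w c (z + t * I))
      (Fc μ m w (fun ξ => -w ξ * c ξ) (z + t * I)) t := fun hc t ht => by
    simpa using hc.line h z I t (by simpa using ht)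
  have s1 : ∀ t : ℝ, 0 < z.im + t → HasDerivAt (fun t : ℝ => ((√(z.im + t) : ℝ) : ℂ))
      ((1 / (2 * √(z.im + t)) : ℝ) : ℂ) t := fun t ht =>
    (((hasDerivAt_id t).const_add z.im).sqrt ht.ne').ofReal_comp
  have y1 : (deriv fun t : ℝ => Uc μ m w c (z + t * I)) =ᶠ[𝓝 0] fun t : ℝ =>
      1 / (2 * √(z.im + t)) * Fc μ m w c (z + t * I) +
        √(z.im + t) * Fc μ m w (fun ξ => -w ξ * c ξ) (z + t * I) := by
    filter_upwards [(isOpen_lt continuous_const (continuous_const.add continuous_id)).mem_nhds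
      (show (0 : ℝ) ∈ {t | 0 < z.im + id t} by simpa using hz)] with t ht
    simpa [Uc] using ((s1 t ht).fun_mul (y0 hc t ht)).deriv
  have z0 : 0 < z.im + 0 := by simpa using hz
  have sq0 : (√z.im : ℂ) ≠ 0 := by exact_mod_cast (sqrt_pos.mpr hz).ne'
  have y2 := (((((s1 0 z0).const_mul 2).fun_inv (by simpa using sq0)).fun_mul
    (y0 hc 0 z0)).fun_add ((s1 0 z0).fun_mul (y0 (hc.dy h) 0 z0))).deriv
  simp only [← one_div] at y2
  rw [x2, y1.deriv_eq, y2]
  have i1 := ((hc.dx h).dx h).int h hz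
  have i2 := (hc.dy h).int h hz
  have i3 := ((hc.dy h).dy h).int h hz
  have e : ∫ ξ, ((z.im ^ 2 * (w ξ ^ 2 - m ξ ^ 2) - z.im * w ξ) * c ξ) * ex m w ξ z ∂μ =
      z.im ^ 2 * Fc μ m w (fun ξ => I * m ξ * (I * m ξ * c ξ)) z +
      z.im * Fc μ m w (fun ξ => -w ξ * c ξ) z +
      z.im ^ 2 * Fc μ m w (fun ξ => -w ξ * (-w ξ * c ξ)) z := by
    simp only [Fc, ← integral_const_mul]
    rw [← integral_add (i1.const_mul _) (i2.const_mul _), ← integral_add
      (by exact (i1.const_mul _).add (i2.const_mul _)) (i3.const_mul _)]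
    refine integral_congr_ae (ae_of_all _ fun ξ => ?_)
    simp only
    linear_combination (-(z.im : ℂ) ^ 2 * m ξ ^ 2 * c ξ * ex m w ξ z) * I_mul_I
  rw [e]
  have sq : (z.im : ℂ) = (√z.im : ℂ) ^ 2 := by exact_mod_cast (sq_sqrt hz.le).symm
  simp only [Uc, ofReal_zero, zero_mul, add_zero]
  push_cast
  generalize (√z.im : ℂ) = s at *
  rw [sq]
  field_simp
  ring

end Pool.Agent.H46.Ms
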