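import Pool.Agent.H46.Ms.Theta
import Pool.Agent.H46.Ms.Coef
import Pool.Agent.H46.Ms.Lap

set_option autoImplicit false

namespace Pool.Agent.H46.Ms

open Complex Real Set MeasureTheory

noncomputable def μ0 : Measure (ℤ × ℝ) := Measure.count.prod volume
noncomputable def m0 (x : ℤ × ℝ) : ℝ := 2 * π * x.1
noncomputable def w0 (x : ℤ × ℝ) : ℝ := 2 * π * |(x.1 : ℝ)| * Real.cosh x.2
noncomputable def c0 (x : ℤ × ℝ) : ℂ := BB x.1 * cexp (I * tt * x.2)
noncomputable def kk (n : ℤ) (z : ℂ) : ℂ := ∫ v : ℝ, cexp (I * tt * v) * ex m0 w0 (n, v) z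
noncomputable def UU : ℂ → ℂ := Uc μ0 m0 w0 c0

lemma mZ {E : Type*} [MeasurableSpace E] (f : ℤ → E) : Measurable fun x : ℤ × ℝ => f x.1 :=
  (measurable_of_countable f).comp measurable_fst

lemma wt0 : Wt m0 w0 := by
  refine ⟨mZ fun n => 2 * π * n, (mZ fun n => 2 * π * |(n : ℝ)|).mul (by fun_prop), fun x => ?_⟩
  rw [m0, w0, abs_mul, abs_of_pos two_pi_pos]
  exact le_mul_of_one_le_right (by positivity) (one_le_cosh _)

lemma BB0 : BB 0 = 0 := BB_eq0 (dvd_zero _)
lemma one_le_abs {n : ℤ} (h : n ≠ 0) : (1 : ℝ) ≤ |(n : ℝ)| := by exact_mod_cast Int.one_le_abs h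
lemma norm_et (v : ℝ) : ‖cexp (I * tt * v)‖ = 1 := by rw [Complex.norm_exp]; simp

lemma cosh_int {a : ℝ} (ha : 0 < a) : Integrable fun v : ℝ => rexp (-a * Real.cosh v) := by
  refine (integrable_exp_neg_mul_sq (b := a / 4) (by positivity)).mono' (by fun_prop)
    (ae_of_all _ fun v => ?_)
  rw [Real.norm_of_nonneg (exp_pos _).le]
  refine Real.exp_le_exp.mpr ?_
  have := quadratic_le_exp_of_nonneg (abs_nonneg v)
  rw [← Real.cosh_abs, Real.cosh_eq, ← sq_abs]
  nlinarith [exp_pos (-|v|), abs_nonneg v]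

lemma adm0 : Adm μ0 w0 c0 := by
  have mc : Measurable c0 := (mZ BB).mul (by fun_prop)
  refine ⟨mc.aestronglyMeasurable, fun δ hδ => ?_⟩
  have a0 : 0 < δ * π := by positivity
  have s : Integrable (fun n : ℤ => ‖BB n‖ * rexp (-(δ * π) * |(n : ℝ)|)) Measure.count := by
    refine integrable_count_iff.mpr ((((BB_summ one_lt_two).mul_left
      (2 / (δ * π) ^ 2))).of_nonneg_of_le (fun _ => norm_nonneg _) fun n => ?_)
    by_cases h : n = 0
    · simp [h, BB0]
    have := one_le_abs h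
    have q := quadratic_le_exp_of_nonneg (show 0 ≤ δ * π * |(n : ℝ)| by positivity)
    rw [Real.norm_of_nonneg (by positivity), mul_left_comm, neg_mul, Real.exp_neg,
      rpow_neg (by positivity), rpow_two]
    gcongr
    rw [inv_le_comm₀ (exp_pos _) (by positivity)]
    refine le_trans (le_of_eq ?_) (le_trans (le_add_of_nonneg_left (by positivity)) q)
    field_simp
  have := wt0.mw
  refine (s.mul_prod (cosh_int a0)).mono' (by fun_prop) (ae_of_all _ fun x => ?_)
  by_cases h : x.1 = 0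
  · simp [h, BB0, c0]
  rw [Real.norm_of_nonneg (by positivity), c0, norm_mul, norm_et, mul_one, mul_assoc ‖_‖,
    ← Real.exp_add, w0]
  gcongr
  nlinarith [mul_nonneg (sub_nonneg.mpr (one_le_abs h)) (sub_nonneg.mpr (one_le_cosh x.2)),
    one_le_abs h, one_le_cosh x.2]

lemma fib {f : ℤ × ℝ → ℂ} (hf : Integrable f μ0) : (∀ n, Integrable fun v => f (n, v)) ∧
    HasSum (fun n => ∫ v, f (n, v)) (∫ x, f x ∂μ0) := by
  refine ⟨Measure.ae_count_iff.mp hf.prod_right_ae, ?_⟩
  have := hf.integral_prod_left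
  rw [μ0, integral_prod _ hf, integral_countable this]
  simpa [count_real_singleton] using (integrable_count_iff.mp this).of_norm.hasSum

lemma Fc_has (κ : ℤ → ℂ) (h : Adm μ0 w0 fun x => κ x.1 * c0 x) {z : ℂ} (hz : 0 < z.im) :
    HasSum (fun n => κ n * BB n * kk n z) (Fc μ0 m0 w0 (fun x => κ x.1 * c0 x) z) :=
  (fib (h.int wt0 hz)).2.congr_fun fun n => by
    simp only [kk, c0, ← integral_const_mul, mul_assoc]

lemma F0_has {z : ℂ} (hz : 0 < z.im) : HasSum (fun n => BB n * kk n z) (Fc μ0 m0 w0 c0 z) := by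
  simpa using Fc_has (fun _ => 1) (by simpa using adm0) hz

lemma kint {n : ℤ} (h : n ≠ 0) {z : ℂ} (hz : 0 < z.im) :
    Integrable fun v : ℝ => cexp (I * tt * v) * ex m0 w0 (n, v) z := by
  have := one_le_abs h
  refine (cosh_int (a := z.im * (2 * π * |(n : ℝ)|)) (by positivity)).mono'
    (by unfold ex m0 w0; fun_prop) (ae_of_all _ fun v => ?_)
  rw [norm_mul, norm_et, one_mul, norm_ex, w0]
  exact le_of_eq (by congr 1; ring)

theorem UU_eq {z : ℂ} (hz : 0 < z.im) : GG v0 (5 * z) = √5 * UU z := by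
  have h5 : 0 < (5 * z).im := by simpa using hz
  have P := mul_pos two_pos LL_pos
  have k : ∀ α : O, α ≠ 0 → ∫ u in Ioc (-LL) LL, v0 (hh α) * E5 α (5 * z) u * cexp (I * tt * u) =
      AA α * ∫ v in Ioc (-LL + rho α) (LL + rho α),
        cexp (I * tt * v) * ex m0 w0 (Nm α, v) z := fun α hα => by
    rw [← intervalIntegral.integral_of_le (by linarith), ← intervalIntegral.integral_of_le
      (by linarith), ← intervalIntegral.integral_comp_add_right,
      ← intervalIntegral.integral_const_mul]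
    refine intervalIntegral.integral_congr fun u _ => ?_
    simp only [v0, E5, wt, cosh_eq hα, AA, ex, m0, w0, mul_assoc, ← Complex.exp_add]
    congr 2
    simp only [mul_re, mul_im, re_ofNat, im_ofNat]
    push_cast; ring
  have h := (unfold (by simp [v0, hh, lg]) (GG_has v0 h5).1 (-LL)).prod_fiberwise
    (g := (Win (-LL)).indicator fun α => AA α * kk (Nm α) z) fun β => by
      by_cases hβ : β ∈ Win (-LL)
      swap
      · simp only [indicator_of_notMem hβ]; exact hasSum_zero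
      have := hasSum_integral_iUnion (fun _ => measurableSet_Ioc)
        (pairwise_disjoint_Ioc_add_zsmul (-LL + rho β) (2 * LL))
        (kint (Nm_ne hβ.1) hz).integrableOn
      rw [iUnion_Ioc_add_zsmul P, Measure.restrict_univ] at this
      simp only [indicator_of_mem hβ]
      refine (this.mul_left (AA β)).congr_fun fun j => ?_
      rw [k _ (O_mul_ne (Units.ne_zero _) hβ.1), AA_mul, Nm_mul, rho_mul (Units.ne_zero _) hβ.1,
        (upow j).1, (upow j).2.1, (upow j).2.2, one_mul, one_mul]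
      congr 4 <;> simp <;> ring
  rw [GG, (group (κ := fun n => kk n z) h).unique (F0_has hz), UU, Uc, ← mul_assoc]
  simp

theorem UU_lap {z : ℂ} (hz : 0 < z.im) :
    -(z.im : ℂ) ^ 2 * (deriv (deriv fun t : ℝ => UU (z + t)) 0 +
      deriv (deriv fun t : ℝ => UU (z + t * I)) 0) = (1 / 4 + tt ^ 2) * UU z := by
  have w0' := wt0.w0
  have mw := wt0.mw
  have a1 := ((adm0.dx wt0).dx wt0).int wt0 hz
  have a2 := (adm0.dy wt0).int wt0 hz
  have a3 := ((adm0.dy wt0).dy wt0).int wt0 hz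
  have a4 := adm0.int wt0 hz
  have a5 : Integrable (fun x => ((z.im ^ 2 * (w0 x ^ 2 - m0 x ^ 2) - z.im * w0 x) * c0 x) *
      ex m0 w0 x z) μ0 :=
    (((a1.const_mul (z.im ^ 2)).add (a2.const_mul z.im)).add (a3.const_mul (z.im ^ 2))).congr
      (ae_of_all _ fun x => by
        simp only [Pi.add_apply]
        linear_combination ((z.im : ℂ) ^ 2 * m0 x ^ 2 * c0 x * ex m0 w0 x z) * I_mul_I)
  have a6 := (adm0.mul wt0 (g := fun x => -(z.im * (2 * π * |(x.1 : ℝ)| * Real.sinh x.2) : ℝ) -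
    I * tt) (((mZ fun n => 2 * π * |(n : ℝ)|).mul (by fun_prop)).const_mul _
      |>.complex_ofReal.neg.sub_const _) (z.im + |tt|) fun x => by
      refine (norm_sub_le _ _).trans ?_
      have : |Real.sinh x.2| ≤ Real.cosh x.2 := abs_le.mpr
        ⟨by linarith [Real.cosh_add_sinh x.2, exp_pos x.2], (sinh_lt_cosh _).le⟩
      have : |z.im * (2 * π * |(x.1 : ℝ)| * Real.sinh x.2)| ≤ z.im * w0 x := by
        rw [abs_mul, abs_mul, abs_of_pos hz, abs_of_nonneg (by positivity), w0]; gcongr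
      rw [norm_neg, norm_real, norm_mul I, norm_I, norm_real, Real.norm_eq_abs, Real.norm_eq_abs]
      nlinarith [w0' x, abs_nonneg tt]).int wt0 hz
  have a7 := a5.add (a4.const_mul (tt ^ 2))
  have z : ∫ x, (((z.im ^ 2 * (w0 x ^ 2 - m0 x ^ 2) - z.im * w0 x) * c0 x) * ex m0 w0 x z +
      tt ^ 2 * (c0 x * ex m0 w0 x z)) ∂μ0 = 0 := by
    refine (fib a7).2.unique (hasSum_zero.congr_fun fun n => ?_)
    refine integral_eq_zero_of_hasDerivAt_of_integrable (fun v => ?_) ((fib a7).1 n) ((fib a6).1 n)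
    have b1 := (((Real.hasDerivAt_sinh v).const_mul (2 * π * |(n : ℝ)|)).const_mul
      z.im).ofReal_comp.fun_neg.sub_const (I * tt)
    have b2 := ((hasDerivAt_id v).ofReal_comp.const_mul (I * tt)).cexp.const_mul (BB n)
    have b3 := ((((Real.hasDerivAt_cosh v).const_mul (2 * π * |(n : ℝ)|)).ofReal_comp.mul_const
      (z.im : ℂ)).const_sub (I * (2 * π * n : ℝ) * z.re)).cexp
    refine ((b1.fun_mul b2).fun_mul b3).congr_deriv ?_
    have c1 : ((|(n : ℝ)| : ℝ) : ℂ) ^ 2 = n ^ 2 := by exact_mod_cast sq_abs (n : ℝ)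
    have c2 := Complex.cosh_sq v
    simp only [Pi.add_apply, c0, ex, m0, w0, id]
    push_cast
    generalize cexp (I * tt * v) = A
    generalize cexp (_ - _) = B
    linear_combination (BB n * A * B) * (-tt ^ 2 * I_mul_I - 4 * π ^ 2 * z.im ^ 2 *
      (((|(n : ℝ)| : ℝ) : ℂ) ^ 2 * c2 + c1))
  rw [integral_add a5 (a4.const_mul _), integral_const_mul] at z
  rw [neg_mul, UU, adm0.lap wt0 hz, eq_neg_of_add_eq_zero_left z, Uc, Fc]
  ring

lemma kk_add (n : ℤ) (z : ℂ) (r : ℝ) : kk n (z + r) = cexp (2 * π * I * n * r) * kk n z := by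
  simp only [kk, ← integral_const_mul, ex, m0, ← Complex.exp_add, add_re, add_im, ofReal_re,
    ofReal_im]
  congr 1; funext v; congr 1; push_cast; ring

lemma kk_mul (n : ℤ) (z : ℂ) (p : ℕ) : kk n (p * z) = kk (p * n) z := by
  simp only [kk, ex, m0, w0, mul_re, mul_im, natCast_re, natCast_im, Int.cast_mul, abs_mul,
    Int.cast_natCast, Nat.abs_cast]
  congr 1; funext v; congr 2; push_cast; ring

lemma root_sum {p : ℕ} (hp : p ≠ 0) (n : ℤ) : ∑ b ∈ Finset.range p,
    cexp (2 * π * I * n * ((b / p : ℝ) : ℂ)) = if (p : ℤ) ∣ n then (p : ℂ) else 0 := by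
  have p0 : (p : ℂ) ≠ 0 := by exact_mod_cast hp
  have e : ∀ b : ℕ, cexp (2 * π * I * n * ((b / p : ℝ) : ℂ)) = cexp (2 * π * I * n / p) ^ b :=
    fun b => by rw [← Complex.exp_nat_mul]; push_cast; congr 1; ring
  simp only [e]
  split_ifs with c
  · obtain ⟨k, rfl⟩ := c
    rw [show (2 * π * I * ((p * k : ℤ) : ℂ) / p) = k * (2 * π * I) by push_cast; field_simp,
      exp_int_mul_two_pi_mul_I]
    simp
  · rw [geom_sum_eq, ← Complex.exp_nat_mul, show (p * (2 * π * I * n / p) : ℂ) = n * (2 * π * I) by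
      field_simp, exp_int_mul_two_pi_mul_I, sub_self, zero_div]
    intro h
    obtain ⟨k, hk⟩ := Complex.exp_eq_one_iff.mp h
    have := two_pi_I_ne_zero
    refine c ⟨k, ?_⟩
    have : (n : ℂ) = p * k := by
      field_simp at hk
      exact hk
    exact_mod_cast this

theorem UU_hecke {p : ℕ} (hp : p ≠ 0) {l : ℂ} (hl : ∀ n : ℤ,
    BB (p * n) + (if (p : ℤ) ∣ n then BB (n / p) else 0) = l * BB n) {z : ℂ} (hz : 0 < z.im) :
    UU (p * z) + ∑ b ∈ Finset.range p, UU ((z + b) / p) = √p * l * UU z := by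
  have p0 : (p : ℂ) ≠ 0 := by exact_mod_cast hp
  have p1 : (p : ℤ) ≠ 0 := by exact_mod_cast hp
  have p2 : (0 : ℝ) < p := by positivity
  have inj : Function.Injective fun n : ℤ => p * n := mul_right_injective₀ p1
  have e : ∀ b : ℕ, (z + b) / p = z / p + (b / p : ℝ) := fun b => by push_cast; ring
  have i1 : (z / p).im = z.im / p := by simp
  have h1 : HasSum (fun n : ℤ => (if (p : ℤ) ∣ n then BB (n / p) else 0) * kk n z)
      (Fc μ0 m0 w0 c0 (p * z)) := by
    refine (inj.hasSum_iff fun n hn => ?_).mp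
      ((F0_has (by simpa using mul_pos p2 hz)).congr_fun fun n => ?_)
    · rw [if_neg fun ⟨c, e⟩ => hn ⟨c, e.symm⟩, zero_mul]
    · simp [kk_mul, Int.mul_ediv_cancel_left _ p1]
  have h2 : HasSum (fun n : ℤ => p * (BB (p * n) * kk n z))
      (∑ b ∈ Finset.range p, Fc μ0 m0 w0 c0 ((z + b) / p)) := by
    have := hasSum_sum (s := Finset.range p) fun b _ => F0_has (z := (z + b) / p)
      (by rw [e, add_im, i1]; simpa using div_pos hz p2)
    simp only [e, kk_add, mul_left_comm (BB _), ← Finset.sum_mul, root_sum hp] at this ⊢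
    refine ((inj.hasSum_iff fun n hn => ?_).mpr this).congr_fun fun n => ?_
    · rw [if_neg fun ⟨c, e⟩ => hn ⟨c, e.symm⟩, zero_mul]
    · simp [← kk_mul, mul_div_cancel₀ _ p0]
  have h4 := (h1.mul_left (p : ℂ)).add h2
  have h3 := h4.unique (((F0_has hz).mul_left (p * l)).congr_fun fun n => by
    linear_combination (p * kk n z) * hl n)
  have s : (√p : ℂ) ^ 2 = p := by exact_mod_cast sq_sqrt p2.le
  have s0 : (√p : ℂ) ≠ 0 := by exact_mod_cast (sqrt_pos.mpr p2).ne'
  have i2 : ∀ b : ℕ, √((z + b) / p).im = √z.im / √p := fun b => by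
    rw [e, add_im, i1, ofReal_im, add_zero, sqrt_div hz.le]
  have i3 : √(p * z).im = √p * √z.im := by simp
  simp only [UU, Uc, i2, i3, ← Finset.mul_sum]
  push_cast
  rw [eq_sub_of_add_eq' h3]
  generalize (√p : ℂ) = r at *
  rw [← s]; field_simp; ring

theorem UU_inv {a b c d : ℤ} (h : a * d - b * c = 1) (hc : (25 : ℤ) ∣ c) {z : ℂ} (hz : 0 < z.im)
    (hz' : 0 < ((a * z + b) / (c * z + d)).im) : UU ((a * z + b) / (c * z + d)) = UU z := by
  obtain ⟨c, rfl⟩ := hc
  obtain ⟨v, h1, h2⟩ := GG_mob (a := a) (b := 5 * b) (c := 5 * c) (d := d) (by linarith)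
  refine mul_left_cancel₀ s5 ?_
  rw [h1 (by simp) (by simp)] at h2
  rw [← UU_eq hz, ← UU_eq hz', ← h2 (5 * z) (by simpa using hz)]
  congr 1; push_cast; rw [← mul_div_assoc]; congr 1 <;> ring

lemma mob_im {a b c d : ℤ} (h : a * d - b * c = 1) {z : ℂ} (hz : 0 < z.im) :
    0 < ((a * z + b) / (c * z + d)).im := by
  let γ : Matrix.SpecialLinearGroup (Fin 2) ℤ := ⟨!![a, b; c, d], by rw [Matrix.det_fin_two_of, h]⟩
  have := (γ • (⟨z, hz⟩ : UpperHalfPlane)).coe_im_pos
  rw [UpperHalfPlane.coe_specialLinearGroup_apply] at this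
  simpa [γ] using this

theorem UU_cusp {a b c d : ℤ} (h : a * d - b * c = 1) : ∃ C : ℝ, ∀ z : ℂ, 1 ≤ z.im →
    ‖UU ((a * z + b) / (c * z + d))‖ ≤ C * rexp (-(1 / 100 * z.im)) := by
  obtain ⟨K, hK⟩ := GG_decay
  have : ∃ (v : ZMod 5 → ℂ) (k : ℤ) (r : ℝ), 1 / 5 ≤ r ∧ ∀ z : ℂ, 0 < z.im →
      GG v0 (5 * ((a * z + b) / (c * z + d))) = GG v (r * (z + k)) := by
    by_cases hc : (5 : ℤ) ∣ c
    · obtain ⟨c, rfl⟩ := hc
      obtain ⟨v, -, h2⟩ := GG_mob (a := a) (b := 5 * b) (c := c) (d := d) (by linarith)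
      refine ⟨v, 0, 5, by norm_num, fun z hz => ?_⟩
      rw [← h2 _ (by simpa using hz)]
      congr 1; push_cast; rw [← mul_div_assoc]; congr 1 <;> ring
    · obtain ⟨x, y, e⟩ := (Int.prime_iff_natAbs_prime.mpr (by norm_num) :
        Prime (5 : ℤ)).coprime_iff_not_dvd.mpr hc
      obtain ⟨v, -, h2⟩ := GG_mob (a := 5 * a) (b := b - a * (y * d)) (c := c) (d := x * d)
        (by linear_combination h + a * d * e)
      refine ⟨v, y * d, 1 / 5, le_rfl, fun z hz => ?_⟩
      rw [← h2 _ (by simpa using hz), ← mul_div_mul_left _ (_ + ((x * d : ℤ) : ℂ))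
        (show (5 : ℂ) ≠ 0 by norm_num)]
      have e' : (x * 5 + y * c : ℂ) = 1 := by exact_mod_cast congrArg (Int.cast : ℤ → ℂ) e
      congr 1; push_cast; rw [← mul_div_assoc]; congr 1
      · ring
      · linear_combination (-d : ℂ) * e'
  obtain ⟨v, k, r, hr, hv⟩ := this
  refine ⟨|K| * ‖v‖, fun z hz => ?_⟩
  have z0 : 0 < z.im := by linarith
  have i : (r * (z + k) : ℂ).im = r * z.im := by simp
  have a1 := hK v (r * (z + k)) (by rw [i]; nlinarith)
  rw [← hv z z0, UU_eq (mob_im h z0), norm_mul, norm_real, i] at a1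
  have a2 : (1 : ℝ) ≤ ‖√5‖ := by
    rw [Real.norm_of_nonneg (sqrt_nonneg _)]; exact one_le_sqrt.mpr (by norm_num)
  refine ((le_mul_of_one_le_left (norm_nonneg _) a2).trans a1).trans ?_
  gcongr
  · exact le_abs_self K
  · nlinarith

end Pool.Agent.H46.Ms
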