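import Pool.Agent.H46.Ms.Fin
import Pool.Agent.H46.Ms.Defs

set_option autoImplicit false

namespace Pool.Agent.H46.Ms

theorem isMaass : IsMaass 25 tt UU aa :=
  ⟨adm0.smoothU wt0, UU_ne, fun _ _ _ _ h hc _ hz => UU_inv h hc hz (mob_im h hz),
    fun _ => UU_lap, fun _ _ _ _ h => (UU_cusp h).imp fun _ hC => ⟨1 / 100, by norm_num, hC⟩,
    fun _ hp h5 _ => UU_hecke hp.ne_zero (hecke' hp (by rintro rfl; exact h5 (by norm_num)))⟩

theorem vanish {q : ℕ} (hq : q ≠ 0) (χ : DirichletCharacter ℂ q) (h1 : χ.IsPrimitive)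
    (h2 : χ.IsQuadratic) : ∃ L, IsTwistL 25 aa χ L ∧ L (1 / 2) = 0 := by
  have : NeZero q := ⟨hq⟩
  obtain ⟨L, a, b, c⟩ := core' h1 h2
  exact ⟨L, ⟨a, fun s hs => c s hs ▸ euler χ hs⟩, b⟩

end Pool.Agent.H46.Ms
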