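import Pool.Agent.H46.Ms.Four

set_option autoImplicit false

namespace Pool.Agent.H46.Ms

open Complex Real Set MeasureTheory Filter Asymptotics

lemma epow (a : ℝ) (s : ℂ) : ((rexp a : ℝ) : ℂ) ^ s = cexp (a * s) := by
  rw [cpow_def_of_ne_zero (by exact_mod_cast (exp_pos a).ne'), ← ofReal_log (exp_pos a).le,
    Real.log_exp]

lemma beta (a b : ℂ) : ∫ v : ℝ, cexp ((a - b) * v) * ((1 / (2 * Real.cosh v) : ℝ) : ℂ) ^ (a + b) =
    betaIntegral a b / 2 := by
  have d : ∀ v : ℝ, HasDerivAt (fun v => sigmoid (2 * v))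
      (sigmoid (2 * v) * (1 - sigmoid (2 * v)) * 2) v := fun v =>
    ((hasDerivAt_sigmoid (2 * v)).comp v ((hasDerivAt_id v).const_mul 2)).congr_deriv (by ring)
  have := integral_image_eq_integral_abs_deriv_smul MeasurableSet.univ
    (fun v _ => (d v).hasDerivWithinAt)
    (sigmoid_injective.comp (mul_right_injective₀ two_ne_zero)).injOn
    fun x : ℝ => (x : ℂ) ^ (a - 1) * (1 - (x : ℂ)) ^ (b - 1)
  rw [image_univ, show (fun v => sigmoid (2 * v)) = sigmoid ∘ (2 * ·) from rfl,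
    (mul_left_surjective₀ two_ne_zero).range_comp, range_sigmoid, Measure.restrict_univ] at this
  rw [betaIntegral, intervalIntegral.integral_of_le zero_le_one, integral_Ioc_eq_integral_Ioo, this,
    ← integral_div]
  congr 1; funext v
  have c : 0 < 2 * Real.cosh v := by linarith [one_le_cosh v]
  obtain ⟨l, hl⟩ : ∃ l, rexp l = 2 * Real.cosh v := ⟨_, exp_log c⟩
  have e : rexp (-(2 * v)) = rexp (-v) / rexp v := by rw [← Real.exp_sub]; ring_nf
  have e1 : sigmoid (2 * v) = rexp (v - l) := by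
    rw [Real.exp_sub, hl, sigmoid, e, Real.cosh_eq]; field_simp
  have e2 : 1 - sigmoid (2 * v) = rexp (-v - l) := by
    rw [Real.exp_sub, hl, sigmoid, e, Real.cosh_eq]; field_simp; ring
  have e3 : 1 / (2 * Real.cosh v) = rexp (-l) := by rw [Real.exp_neg, hl, one_div]
  rw [← ofReal_one, ← ofReal_sub, e2, e1, e3, epow, epow, epow,
    abs_of_pos (by positivity), real_smul]
  push_cast
  rw [mul_assoc, mul_left_comm, mul_div_cancel_left₀ _ two_ne_zero]
  simp only [← Complex.exp_add]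
  congr 1; ring

theorem mel_val {κ : ℤ → ℂ} {Q : ℝ} (hQ : 0 < Q) {σ : ℂ} (h1 : 1 ≤ σ.re)
    (hs : Summable fun n : ℤ => ‖κ n‖ * ‖BB n‖ * |(n : ℝ)| ^ (-σ.re)) :
    mellin (fun y : ℝ => Fc μ0 m0 w0 (fun x => κ x.1 * c0 x) (I * y / Q)) σ =
      ((Q / π : ℝ) : ℂ) ^ σ * (Gamma (σ / 2 + I * tt / 2) * Gamma (σ / 2 - I * tt / 2) / 2) *
        ∑' n : ℤ, κ n * BB n * ((1 / |(n : ℝ)| : ℝ) : ℂ) ^ σ := by
  have σ0 : 0 < σ.re := by linarith
  have wp : ∀ x : ℤ × ℝ, x.1 ≠ 0 → 0 < w0 x / Q ∧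
      1 / (w0 x / Q) = Q / π * (1 / |(x.1 : ℝ)| * (1 / (2 * Real.cosh x.2))) := fun x hx => by
    have := one_le_abs hx
    have := one_le_cosh x.2
    unfold w0
    exact ⟨by positivity, by field_simp⟩
  have mc : Measurable c0 := (mZ BB).mul (by fun_prop)
  have mk := mZ κ
  have mw := wt0.mw
  set f : ℝ × ℤ × ℝ → ℂ := fun p => κ p.2.1 * c0 p.2 *
    ((p.1 : ℂ) ^ (σ - 1) * cexp (-((w0 p.2 / Q : ℝ) * p.1))) with hf
  have mf : Measurable f := by simp only [hf]; fun_prop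
  have nf : ∀ x, ∫ y in Ioi 0, ‖f (y, x)‖ = ‖κ x.1‖ * ‖BB x.1‖ *
      ∫ y in Ioi 0, y ^ (σ.re - 1) * rexp (-(w0 x / Q * y)) := fun x => by
    rw [← integral_const_mul]
    refine setIntegral_congr_fun measurableSet_Ioi fun y hy => ?_
    simp only [hf, c0, norm_mul, norm_cpow_eq_rpow_re_of_pos hy, Complex.norm_exp]
    simp
  have sn : Integrable (fun n : ℤ => ‖κ n‖ * ‖BB n‖ * (1 / |(n : ℝ)|) ^ σ.re) Measure.count :=
    integrable_count_iff.mpr (hs.congr fun n => by
      rw [Real.norm_of_nonneg (by positivity), one_div, inv_rpow (abs_nonneg _),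
        rpow_neg (abs_nonneg _)])
  have ic : Integrable fun v : ℝ => (1 / (2 * Real.cosh v)) ^ σ.re := by
    refine (integrable_inv_one_add_sq.const_mul 2).mono' (Measurable.aestronglyMeasurable
      (by fun_prop)) (ae_of_all _ fun v => ?_)
    have := one_le_cosh v
    have q := quadratic_le_exp_of_nonneg (abs_nonneg v)
    rw [Real.norm_of_nonneg (by positivity)]
    refine (rpow_le_self_of_le_one (by positivity) (by rw [div_le_one] <;> linarith) h1).trans ?_
    rw [← div_eq_mul_inv, div_le_div_iff₀ (by linarith) (by positivity), ← Real.cosh_abs,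
      Real.cosh_eq, ← sq_abs]
    nlinarith [exp_pos (-|v|), abs_nonneg v]
  have fi : Integrable f ((volume.restrict (Ioi 0)).prod μ0) := by
    unfold μ0
    refine (integrable_prod_iff' mf.aestronglyMeasurable).mpr ⟨ae_of_all _ fun x => ?_, ?_⟩
    · by_cases hx : x.1 = 0
      · simp [hf, c0, hx, BB0]
      have : Integrable (fun y : ℝ => (y : ℂ) ^ (σ - 1) * cexp (-((w0 x / Q : ℝ) * y)))
        (volume.restrict (Ioi 0)) := Integrable.of_integral_ne_zero ?_
      · simpa only [hf] using this.const_mul (κ x.1 * c0 x)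
      rw [integral_cpow_mul_exp_neg_mul_Ioi σ0 (wp x hx).1]
      exact mul_ne_zero (cpow_ne_zero_iff.mpr (Or.inl (one_div_ne_zero
        (by exact_mod_cast (wp x hx).1.ne')))) (Complex.Gamma_ne_zero_of_re_pos σ0)
    · refine ((sn.mul_prod ic).const_mul ((Q / π) ^ σ.re * Real.Gamma σ.re)).congr
        (ae_of_all _ fun x => ?_)
      simp only [nf]
      by_cases hx : x.1 = 0
      · simp [hx, BB0]
      have := one_le_cosh x.2
      rw [Real.integral_rpow_mul_exp_neg_mul_Ioi σ0 (wp x hx).1, (wp x hx).2,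
        mul_rpow (by positivity) (by positivity), mul_rpow (by positivity) (by positivity)]
      ring
  have sn' : Integrable (fun n : ℤ => κ n * BB n * ((1 / |(n : ℝ)| : ℝ) : ℂ) ^ σ) Measure.count :=
    sn.mono' (measurable_of_countable _).aestronglyMeasurable (ae_of_all _ fun n => by
      rw [norm_mul, norm_mul, norm_cpow_eq_rpow_re_of_nonneg (by positivity) σ0.ne'])
  have Q0 : (Q : ℂ) ≠ 0 := by exact_mod_cast hQ.ne'
  calc _ = ∫ y in Ioi 0, ∫ x, f (y, x) ∂μ0 := by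
        refine setIntegral_congr_fun measurableSet_Ioi fun y _ => ?_
        simp only [Fc, smul_eq_mul, ← integral_const_mul, hf, ex]
        congr 1; funext x
        rw [show (I * y / Q : ℂ) = (y / Q : ℝ) * I by push_cast; ring]
        simp only [mul_re, mul_im, ofReal_re, ofReal_im, I_re, I_im]
        push_cast; ring_nf
    _ = ∫ x, ((Q / π : ℝ) : ℂ) ^ σ * Gamma σ * (κ x.1 * BB x.1 * ((1 / |(x.1 : ℝ)| : ℝ) : ℂ) ^ σ *
          (cexp (I * tt * x.2) * ((1 / (2 * Real.cosh x.2) : ℝ) : ℂ) ^ σ)) ∂μ0 := by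
        have : SFinite μ0 := by unfold μ0; infer_instance
        rw [integral_integral_swap (f := fun y x => f (y, x)) fi]
        congr 1; funext x
        by_cases hx : x.1 = 0
        · simp [hf, c0, hx, BB0]
        have := one_le_cosh x.2
        simp only [hf]
        rw [integral_const_mul, integral_cpow_mul_exp_neg_mul_Ioi σ0 (wp x hx).1, ← ofReal_one,
          ← ofReal_div, (wp x hx).2, ofReal_mul, mul_cpow_ofReal_nonneg (by positivity)
          (by positivity), ofReal_mul, mul_cpow_ofReal_nonneg (by positivity) (by positivity), c0]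
        ring
    _ = _ := by
        have b := beta (σ / 2 + I * tt / 2) (σ / 2 - I * tt / 2)
        have g := Gamma_mul_Gamma_eq_betaIntegral (s := σ / 2 + I * tt / 2)
          (t := σ / 2 - I * tt / 2) (by simpa using σ0) (by simpa using σ0)
        rw [show σ / 2 + I * tt / 2 + (σ / 2 - I * tt / 2) = σ by ring] at b g
        rw [show σ / 2 + I * tt / 2 - (σ / 2 - I * tt / 2) = I * tt by ring] at b
        rw [integral_const_mul, μ0, integral_prod_mul
          (fun n : ℤ => κ n * BB n * ((1 / |(n : ℝ)| : ℝ) : ℂ) ^ σ)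
          (fun v : ℝ => cexp (I * tt * v) * ((1 / (2 * Real.cosh v) : ℝ) : ℂ) ^ σ), b, g,
          integral_countable sn']
        simp only [count_real_singleton, one_smul]
        ring

theorem mel_fe {κ : ℤ → ℂ} (ha : Adm μ0 w0 fun x => κ x.1 * c0 x) {Q : ℝ} (hQ : 0 < Q) {k : ℝ}
    (hk : 0 < k) (fe : ∀ y : ℝ, 0 < y → Fc μ0 m0 w0 (fun x => κ x.1 * c0 x) (I * (1 / y : ℝ) / Q) =
      -(y ^ k : ℝ) * Fc μ0 m0 w0 (fun x => κ x.1 * c0 x) (I * y / Q)) :
    Differentiable ℂ (mellin fun y : ℝ => Fc μ0 m0 w0 (fun x => κ x.1 * c0 x) (I * y / Q)) ∧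
      mellin (fun y : ℝ => Fc μ0 m0 w0 (fun x => κ x.1 * c0 x) (I * y / Q)) (k / 2) = 0 := by
  set f := fun y : ℝ => Fc μ0 m0 w0 (fun x => κ x.1 * c0 x) (I * y / Q) with hf
  have im : ∀ y : ℝ, (I * y / Q : ℂ).im = y / Q := fun y => by simp
  have li : LocallyIntegrableOn f (Ioi 0) := by
    refine ContinuousOn.locallyIntegrableOn (fun y hy => ContinuousAt.continuousWithinAt ?_)
      measurableSet_Ioi
    exact ContinuousAt.comp (f := fun y : ℝ => I * y / Q)
      (ha.der wt0 (by rw [im]; exact div_pos hy hQ)).continuousAt (by fun_prop)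
  have dec : ∀ r : ℝ, (f · - 0) =O[atTop] (· ^ r) := fun r => by
    refine IsBigO.trans ?_ (isLittleO_exp_neg_mul_rpow_atTop (a := 1 / Q) (by positivity) r).isBigO
    refine IsBigO.of_bound (rexp (1 / Q) * ∫ x, ‖κ x.1 * c0 x‖ * rexp (-(1 / Q) * w0 x) ∂μ0) ?_
    filter_upwards [eventually_ge_atTop 1] with y hy
    rw [sub_zero, Real.norm_of_nonneg (exp_pos _).le, ← integral_const_mul, ← integral_mul_const]
    refine norm_integral_le_of_norm_le (((ha.2 _ (by positivity)).const_mul _).mul_const _)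
      (ae_of_all _ fun x => ?_)
    by_cases hx : x.1 = 0
    · simp [c0, hx, BB0]
    have w1 : 1 ≤ w0 x := by
      unfold w0
      nlinarith [mul_le_mul (one_le_abs hx) (one_le_cosh x.2) zero_le_one (abs_nonneg _), pi_gt_three]
    rw [norm_mul, norm_ex, im, mul_left_comm, mul_assoc ‖_‖, ← Real.exp_add, ← Real.exp_add]
    gcongr
    have : 0 < 1 / Q := by positivity
    rw [div_eq_mul_one_div y]
    nlinarith [mul_nonneg (sub_nonneg.mpr hy) (sub_nonneg.mpr w1)]
  let P : WeakFEPair ℂ := ⟨f, f, k, -1, 0, 0, li, li, hk, by norm_num, fun y hy => by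
    simp only [hf, fe y hy, smul_eq_mul]; ring, dec, dec⟩
  have hP : IsStrongFEPair P := ⟨rfl, rfl⟩
  have e := P.functional_equation (k / 2)
  rw [hP.Λ_eq, hP.symm_Λ_eq] at e
  refine ⟨hP.Λ_eq ▸ hP.differentiable_Λ, ?_⟩
  simp only [P, show (k - k / 2 : ℂ) = k / 2 by ring, smul_eq_mul] at e
  linear_combination e / 2

theorem Lfun {κ : ℤ → ℂ} (ha : Adm μ0 w0 fun x => κ x.1 * c0 x) {Q : ℝ} (hQ : 0 < Q) (δ : ℕ)
    (C : ℝ) (hκ : ∀ n, ‖κ n‖ ≤ C * |(n : ℝ)| ^ δ)
    (fe : ∀ y : ℝ, 0 < y → Fc μ0 m0 w0 (fun x => κ x.1 * c0 x) (I * (1 / y : ℝ) / Q) =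
      -(y ^ (2 * δ + 1 : ℝ) : ℝ) * Fc μ0 m0 w0 (fun x => κ x.1 * c0 x) (I * y / Q)) :
    ∃ L : ℂ → ℂ, Differentiable ℂ L ∧ L (1 / 2) = 0 ∧ ∀ s : ℂ, 1 < s.re →
      L s = ∑' n : ℤ, κ n * BB n * ((1 / |(n : ℝ)| : ℝ) : ℂ) ^ (s + δ) := by
  obtain ⟨d, z⟩ := mel_fe ha hQ (by positivity) fe
  have Q0 : ((Q / π : ℝ) : ℂ) ≠ 0 := by exact_mod_cast (div_pos hQ pi_pos).ne'
  have g := differentiable_one_div_Gamma
  refine ⟨fun s => 2 * ((Q / π : ℝ) : ℂ) ^ (-(s + δ)) * (Gamma ((s + δ) / 2 + I * tt / 2))⁻¹ *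
    (Gamma ((s + δ) / 2 - I * tt / 2))⁻¹ * 
    mellin (fun y : ℝ => Fc μ0 m0 w0 (fun x => κ x.1 * c0 x) (I * y / Q)) (s + δ), ?_, ?_, fun s hs => ?_⟩
  · exact (((Differentiable.const_cpow (by fun_prop) (Or.inl Q0)).const_mul 2).mul
      (g.comp (by fun_prop))).mul (g.comp (by fun_prop)) |>.mul (d.comp (by fun_prop))
  · push_cast at z
    simp only [show (1 / 2 + δ : ℂ) = (2 * δ + 1) / 2 by ring, z, mul_zero]
  · have r : (s + δ).re = s.re + δ := by simp
    have δ0 : (0 : ℝ) ≤ δ := Nat.cast_nonneg δ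
    have g1 := Complex.Gamma_ne_zero_of_re_pos (s := (s + δ) / 2 + I * tt / 2) (by simp; linarith)
    have g2 := Complex.Gamma_ne_zero_of_re_pos (s := (s + δ) / 2 - I * tt / 2) (by simp; linarith)
    have g3 : ((Q / π : ℝ) : ℂ) ^ (s + δ) ≠ 0 := cpow_ne_zero_iff.mpr (Or.inl Q0)
    simp only
    rw [mel_val hQ (by linarith), cpow_neg]
    · generalize Complex.Gamma ((s + δ) / 2 + I * tt / 2) = G1 at *
      generalize Complex.Gamma ((s + δ) / 2 - I * tt / 2) = G2 at *
      field_simp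
    · refine ((BB_summ hs).mul_left C).of_nonneg_of_le (fun n => by positivity) fun n => ?_
      by_cases hn : n = 0
      · simp [hn, BB0]
      have := one_le_abs hn
      calc _ ≤ C * |(n : ℝ)| ^ δ * ‖BB n‖ * |(n : ℝ)| ^ (-(s + δ).re) := by gcongr; exact hκ n
        _ = _ := by
          rw [r, neg_add, rpow_add (by linarith), rpow_neg (abs_nonneg _) δ, rpow_natCast]
          field_simp

end Pool.Agent.H46.Ms
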