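import Mathlib

set_option autoImplicit false

namespace Pool.Agent.H46.Ms

open Complex Real

/-- positive definite real part -/
def Pos (A B C : ℂ) : Prop := 0 < A.re ∧ B.re ^ 2 < A.re * C.re

lemma summ1 {a : ℝ} (ha : 0 < a) (b : ℝ) :
    Summable fun n : ℤ => rexp (-π * a * n ^ 2 + 2 * π * b * n) := by
  have := (summable_jacobiTheta₂_term_iff (-I * b) (I * a)).mpr (by simpa using ha)
  refine this.norm.congr fun n => ?_
  rw [jacobiTheta₂_term, Complex.norm_exp]
  congr 1
  have : 2 * π * I * n * (-I * b) + π * I * n ^ 2 * (I * a) =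
      ((-π * a * n ^ 2 + 2 * π * b * n : ℝ) : ℂ) := by
    push_cast
    linear_combination (-2 * π * n * b + π * n ^ 2 * a : ℂ) * I_mul_I
  rw [this, ofReal_re]

lemma Pos.summable {A B C : ℂ} (h : Pos A B C) (p q r : ℂ) :
    Summable fun x : ℤ × ℤ => cexp (-π * (A * x.1 ^ 2 + 2 * B * x.1 * x.2 + C * x.2 ^ 2) +
      2 * π * (p * x.1 + q * x.2) + r) := by
  obtain ⟨h1, h2⟩ := h
  have hC : 0 < C.re := by nlinarith [sq_nonneg B.re]
  set δ := (A.re * C.re - B.re ^ 2) / (A.re + C.re) with hδ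
  have d0 : 0 < δ := div_pos (by linarith) (by linarith)
  have d1 : δ * (A.re + C.re) = A.re * C.re - B.re ^ 2 := by rw [hδ]; field_simp
  have s := ((summ1 d0 p.re).mul_of_nonneg (summ1 d0 q.re) (fun _ => (exp_pos _).le)
    (fun _ => (exp_pos _).le)).mul_right (rexp r.re)
  refine s.of_norm_bounded fun x => ?_
  rw [Complex.norm_exp, ← Real.exp_add, ← Real.exp_add]
  apply Real.exp_le_exp.mpr
  have e : (-π * (A * x.1 ^ 2 + 2 * B * x.1 * x.2 + C * x.2 ^ 2) +
      2 * π * (p * x.1 + q * x.2) + r : ℂ).re =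
      -π * (A.re * x.1 ^ 2 + 2 * B.re * x.1 * x.2 + C.re * x.2 ^ 2) +
      2 * π * (p.re * x.1 + q.re * x.2) + r.re := by
    simp [pow_two]
  rw [e]
  have k : δ * ((x.1 : ℝ) ^ 2 + x.2 ^ 2) ≤
      A.re * x.1 ^ 2 + 2 * B.re * x.1 * x.2 + C.re * x.2 ^ 2 := by
    refine le_of_mul_le_mul_right ?_ (show 0 < A.re + C.re by linarith)
    nlinarith [sq_nonneg (A.re * x.1 + B.re * x.2), sq_nonneg (B.re * x.1 + C.re * x.2)]
  nlinarith [pi_pos]

lemma Pos.ne {A B C : ℂ} (h : Pos A B C) : A ≠ 0 := by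
  rintro rfl; exact absurd h.1 (by simp)

lemma Pos.swap {A B C : ℂ} (h : Pos A B C) : Pos C B A :=
  ⟨by nlinarith [sq_nonneg B.re, h.1, h.2], by linarith [h.2]⟩

lemma Pos.ft {A B C : ℂ} (h : Pos A B C) : Pos (1 / A) (-I * B / A) (C - B ^ 2 / A) := by
  have n0 : 0 < normSq A := normSq_pos.mpr h.ne
  obtain ⟨h1, h2⟩ := h
  have e1 : (1 / A).re = A.re / normSq A := by simp
  have e2 : (-I * B / A).re = (B.im * A.re - B.re * A.im) / normSq A := by
    simp [div_re]; ring
  have e3 : (C - B ^ 2 / A).re =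
      C.re - ((B.re ^ 2 - B.im ^ 2) * A.re + 2 * B.re * B.im * A.im) / normSq A := by
    simp [div_re, pow_two]; ring
  refine ⟨by rw [e1]; positivity, ?_⟩
  rw [e1, e2, e3, div_pow, div_lt_iff₀ (by positivity)]
  field_simp
  have := normSq_apply A
  have k := mul_lt_mul_of_pos_right h2 n0
  rw [this] at k ⊢
  nlinarith

theorem poisson2 {A B C : ℂ} (h : Pos A B C) {r : ℝ} (hr : 0 < r) (hd : A * C - B ^ 2 = r ^ 2)
    (c d : ℂ) :
    ∑' x : ℤ × ℤ, cexp (-π * (A * (x.1 + c) ^ 2 + 2 * B * (x.1 + c) * (x.2 + d) +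
      C * (x.2 + d) ^ 2)) = 1 / r * ∑' x : ℤ × ℤ,
      cexp (-π * (C * x.1 ^ 2 - 2 * B * x.1 * x.2 + A * x.2 ^ 2) / r ^ 2 +
        2 * π * I * (x.1 * c + x.2 * d)) := by
  have A0 := h.ne
  have h2 := h.ft
  have h3 := h2.swap.ft
  set D := C - B ^ 2 / A with hD
  have D0 := h2.swap.ne
  have r0 : (r : ℂ) ≠ 0 := by exact_mod_cast hr.ne'
  have hAD : A * D = r ^ 2 := by rw [hD, ← hd]; field_simp
  have hC : C = D + B ^ 2 / A := by rw [hD]; ring
  clear_value D
  set p := -(A * c + B * d) with hp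
  set q := -(B * c + C * d) with hq
  set K := -π * (A * c ^ 2 + 2 * B * c * d + C * d ^ 2) with hK
  have s1 := h.swap.summable q p K
  have s2 := h2.summable (-I * p / A) (q - B * p / A) (K + π * p ^ 2 / A)
  have s3 := h3.summable (I * d) (I * c) 0
  have rt : A ^ (1 / 2 : ℂ) * D ^ (1 / 2 : ℂ) = r := by
    have a1 : ∀ z : ℂ, (z ^ (1 / 2 : ℂ)) ^ 2 = z := fun z => by
      rw [one_div]; exact_mod_cast cpow_nat_inv_pow z (n := 2) (by norm_num)
    have a2 : ∀ z : ℂ, 0 < z.re → |(z ^ (1 / 2 : ℂ)).im| < (z ^ (1 / 2 : ℂ)).re := fun z hz => by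
      have b1 := congrArg re (a1 z)
      have b2 : 0 ≤ (z ^ (1 / 2 : ℂ)).re := by
        rw [one_div, cpow_inv_two_re]; positivity
      simp only [pow_two, mul_re] at b1
      exact abs_lt_of_sq_lt_sq (by nlinarith) b2
    have a3 : (A ^ (1 / 2 : ℂ) * D ^ (1 / 2 : ℂ)) ^ 2 = r ^ 2 := by rw [mul_pow, a1, a1, hAD]
    rcases sq_eq_sq_iff_eq_or_eq_neg.mp a3 with e | e
    · exact e
    · have b1 := congrArg re e
      have b2 := a2 A h.1
      have b3 := a2 D h2.swap.1
      have b4 := mul_lt_mul'' b2 b3 (abs_nonneg _) (abs_nonneg _)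
      rw [← abs_mul] at b4
      simp only [mul_re, neg_re, ofReal_re] at b1
      linarith [le_abs_self ((A ^ (1 / 2 : ℂ)).im * (D ^ (1 / 2 : ℂ)).im)]
  calc _ = ∑' x : ℤ × ℤ, cexp (-π * (C * x.1 ^ 2 + 2 * B * x.1 * x.2 + A * x.2 ^ 2) +
      2 * π * (q * x.1 + p * x.2) + K) := by
        rw [← (Equiv.prodComm ℤ ℤ).tsum_eq]
        refine tsum_congr fun x => ?_
        simp only [Equiv.prodComm_apply, Prod.fst_swap, Prod.snd_swap, hp, hq, hK]
        congr 1; ring
    _ = ∑' n : ℤ, 1 / A ^ (1 / 2 : ℂ) * ∑' m : ℤ, cexp (-π * (1 / A * m ^ 2 +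
          2 * (-I * B / A) * m * n + D * n ^ 2) + 2 * π * (-I * p / A * m + (q - B * p / A) * n) +
          (K + π * p ^ 2 / A)) := by
        rw [s1.tsum_prod]
        refine tsum_congr fun n => ?_
        have := tsum_exp_neg_quadratic h.1 (p - B * n)
        calc _ = ∑' m : ℤ, cexp (-π * C * n ^ 2 + 2 * π * q * n + K) *
              cexp (-π * A * m ^ 2 + 2 * π * (p - B * n) * m) := by
              refine tsum_congr fun m => ?_
              rw [← Complex.exp_add]; congr 1; ring
          _ = _ := by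
              rw [tsum_mul_left, this, mul_left_comm, ← tsum_mul_left]
              congr 1
              refine tsum_congr fun m => ?_
              rw [← Complex.exp_add]; congr 1
              rw [hC]; field_simp
              linear_combination (-π * (p - B * n) ^ 2) * I_mul_I
    _ = 1 / A ^ (1 / 2 : ℂ) * ∑' m : ℤ, 1 / D ^ (1 / 2 : ℂ) * ∑' n : ℤ,
          cexp (-π * (1 / D * n ^ 2 + 2 * (-I * (-I * B / A) / D) * n * m +
            (1 / A - (-I * B / A) ^ 2 / D) * m ^ 2) + 2 * π * (I * d * n + I * c * m) + 0) := by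
        rw [tsum_mul_left, Summable.tsum_comm (f := fun m n : ℤ => cexp (-π * (1 / A * m ^ 2 +
          2 * (-I * B / A) * m * n + D * n ^ 2) + 2 * π * (-I * p / A * m + (q - B * p / A) * n) +
          (K + π * p ^ 2 / A))) s2]
        congr 1
        refine tsum_congr fun m => ?_
        have := tsum_exp_neg_quadratic h2.swap.1 (q - B * p / A + I * B / A * m)
        calc _ = ∑' n : ℤ, cexp (-π * (1 / A * m ^ 2) + 2 * π * (-I * p / A * m) +
              (K + π * p ^ 2 / A)) *
              cexp (-π * D * n ^ 2 + 2 * π * (q - B * p / A + I * B / A * m) * n) := by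
              refine tsum_congr fun m => ?_
              rw [← Complex.exp_add]; congr 1; ring
          _ = _ := by
              rw [tsum_mul_left, this, mul_left_comm, ← tsum_mul_left]
              congr 1
              refine tsum_congr fun n => ?_
              rw [← Complex.exp_add]; congr 1
              rw [hK, hp, hq, hC]; field_simp
              ring_nf
              simp only [I_sq, I_pow_three, I_pow_four]
              ring
    _ = _ := by
        rw [tsum_mul_left, ← mul_assoc, s3.tsum_comm, ← s3.tsum_prod, div_mul_div_comm, rt, one_mul,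
          ← (Equiv.prodComm ℤ ℤ).tsum_eq]
        congr 1
        refine tsum_congr fun x => ?_
        simp only [Equiv.prodComm_apply, Prod.fst_swap, Prod.snd_swap]
        congr 1
        rw [← hAD, hC]; field_simp
        ring_nf
        simp only [I_sq]
        ring

end Pool.Agent.H46.Ms
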