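import Mathlib

set_option autoImplicit false

namespace Pool.Agent.H46.Ms

open Complex Real Set goldenRatio

abbrev O := QuadraticAlgebra ℤ 1 1

noncomputable def e1 (α : O) : ℝ := α.re + α.im * φ
noncomputable def e2 (α : O) : ℝ := α.re + α.im * ψ
def hh (α : O) : ZMod 5 := α.re + 3 * α.im
def Nm (α : O) : ℤ := α.re ^ 2 + α.re * α.im - α.im ^ 2
def lg (k : ZMod 5) : ℤ := if k = 0 then 0 else if k = 1 ∨ k = 4 then 1 else -1
noncomputable def rho (α : O) : ℝ := log |e1 α| - log |e2 α|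
noncomputable def LL : ℝ := 2 * Real.log φ
noncomputable def tt : ℝ := π / LL
noncomputable def AA (α : O) : ℂ := lg (hh α) * cexp (-(I * tt * rho α))

lemma z5 : (5 : ZMod 5) = 0 := by decide
lemma e1_mul (α β : O) : e1 (α * β) = e1 α * e1 β := by
  simp [e1]; linear_combination (-(α.im : ℝ) * β.im) * goldenRatio_sq
lemma e2_mul (α β : O) : e2 (α * β) = e2 α * e2 β := by
  simp [e2]; linear_combination (-(α.im : ℝ) * β.im) * goldenConj_sq
lemma hh_mul (α β : O) : hh (α * β) = hh α * hh β := by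
  simp [hh]; linear_combination (-(α.im : ZMod 5) * β.im) * z5
lemma Nm_mul (α β : O) : Nm (α * β) = Nm α * Nm β := by simp [Nm]; ring
lemma lg_mul : ∀ a b : ZMod 5, lg (a * b) = lg a * lg b := by decide
lemma Nm_cast (α : O) : (Nm α : ℝ) = e1 α * e2 α := by
  simp [Nm, e1, e2]
  linear_combination (-(α.re : ℝ) * α.im) * goldenRatio_add_goldenConj -
    (α.im : ℝ) ^ 2 * goldenRatio_mul_goldenConj
lemma Nm_hh (α : O) : (Nm α : ZMod 5) = hh α ^ 2 := by
  simp [Nm, hh]
  linear_combination (-(α.re : ZMod 5) * α.im - 2 * α.im ^ 2) * z5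
lemma sq_sum (α : O) : e1 α ^ 2 + e2 α ^ 2 = 2 * α.re ^ 2 + 2 * α.re * α.im + 3 * α.im ^ 2 := by
  simp only [e1, e2]
  linear_combination (2 * (α.re : ℝ) * α.im + α.im ^ 2) * goldenRatio_add_goldenConj +
    (α.im : ℝ) ^ 2 * goldenRatio_sq + (α.im : ℝ) ^ 2 * goldenConj_sq

lemma irr {x : ℝ} (hx : Irrational x) {α : O} (h : α ≠ 0) : (α.re : ℝ) + α.im * x ≠ 0 := by
  intro e
  by_cases hb : α.im = 0
  · exact h (QuadraticAlgebra.ext (by simpa [hb] using e) hb)
  · have : (α.im : ℝ) ≠ 0 := by exact_mod_cast hb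
    exact hx.ne_rational (-α.re) α.im (by field_simp; push_cast; linarith)

lemma e1_ne {α : O} (h : α ≠ 0) : e1 α ≠ 0 := irr goldenRatio_irrational h
lemma e2_ne {α : O} (h : α ≠ 0) : e2 α ≠ 0 := irr goldenConj_irrational h
lemma Nm_ne {α : O} (h : α ≠ 0) : Nm α ≠ 0 := by
  have := mul_ne_zero (e1_ne h) (e2_ne h)
  rw [← Nm_cast] at this; exact_mod_cast this
lemma O_mul_ne {α β : O} (h : α ≠ 0) (h' : β ≠ 0) : α * β ≠ 0 := fun e => by
  have := mul_ne_zero (Nm_ne h) (Nm_ne h')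
  rw [← Nm_mul, e] at this; exact this rfl
lemma O_inj {α : O} (h : α ≠ 0) : Function.Injective (α * ·) := fun x y e => by
  by_contra c
  exact O_mul_ne h (sub_ne_zero.mpr c) (by rw [mul_sub, show α * x = α * y from e, sub_self])

lemma rho_mul {α β : O} (h : α ≠ 0) (h' : β ≠ 0) : rho (α * β) = rho α + rho β := by
  simp only [rho, e1_mul, e2_mul, log_abs, log_mul (e1_ne h) (e1_ne h'),
    log_mul (e2_ne h) (e2_ne h')]
  ring
lemma AA_zero : AA 0 = 0 := by simp [AA, hh, lg]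
lemma AA_mul (α β : O) : AA (α * β) = AA α * AA β := by
  by_cases h : α = 0
  · simp [h, AA_zero]
  by_cases h' : β = 0
  · simp [h', AA_zero]
  simp only [AA, hh_mul, lg_mul, rho_mul h h']
  push_cast
  rw [mul_add, neg_add, Complex.exp_add]; ring
lemma lg_le : ∀ k : ZMod 5, |lg k| ≤ 1 := by decide
lemma norm_AA (α : O) : ‖AA α‖ ≤ 1 := by
  have : ‖cexp (-(I * tt * rho α))‖ = 1 := by rw [Complex.norm_exp]; simp
  rw [AA, norm_mul, this, mul_one, Complex.norm_intCast]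
  exact_mod_cast lg_le _

lemma LL_pos : 0 < LL := mul_pos two_pos (log_pos one_lt_goldenRatio)
lemma exp_LL : rexp LL = φ + 1 := by
  rw [LL, two_mul, Real.exp_add, exp_log goldenRatio_pos, ← pow_two, goldenRatio_sq]
lemma tt_LL : tt * LL = π := by rw [tt]; field_simp [LL_pos.ne']
lemma rho_int (n : ℤ) : rho n = 0 := by simp [rho, e1, e2]
lemma AA_int (n : ℤ) : AA n = lg n := by simp [AA, rho_int, hh]
lemma Nm_int (n : ℤ) : Nm n = n ^ 2 := by simp [Nm]

def om : O := ⟨0, 1⟩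
lemma om_ne : om ≠ 0 := by decide
lemma rho_om : rho om = LL := by
  have : ψ = -φ⁻¹ := by rw [inv_goldenRatio, neg_neg]
  have a : e1 om = φ := by simp [e1, om]
  have b : e2 om = -φ⁻¹ := by rw [← this]; simp [e2, om]
  rw [rho, a, b, log_abs, log_abs, log_neg_eq_log, Real.log_inv, LL]; ring
lemma AA_om : AA om = 1 := by
  have : -(I * tt * LL : ℂ) = -(π * I) := by rw [← tt_LL]; push_cast; ring
  rw [AA, rho_om, this, Complex.exp_neg, exp_pi_mul_I, show lg (hh om) = -1 by decide]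
  norm_num

def uu : Oˣ := ⟨om * om, ⟨2, -1⟩, by decide, by decide⟩

lemma upow (j : ℤ) : Nm (uu ^ j : Oˣ) = 1 ∧ AA (uu ^ j : Oˣ) = 1 ∧ rho (uu ^ j : Oˣ) = j * (2 * LL) := by
  have a1 : AA uu = 1 := by rw [show (uu : O) = om * om from rfl, AA_mul, AA_om, one_mul]
  have a2 : rho uu = 2 * LL := by
    rw [show (uu : O) = om * om from rfl, rho_mul om_ne om_ne, rho_om, two_mul]
  have a3 : Nm uu = 1 := by decide
  induction j using Int.induction_on with
  | zero => exact ⟨Nm_int 1, (AA_int 1).trans (by rw [show lg ((1 : ℤ) : ZMod 5) = 1 by decide]; simp), (rho_int 1).trans (by simp)⟩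
  | succ n ih =>
    rw [zpow_add_one, Units.val_mul, Nm_mul, AA_mul, rho_mul (Units.ne_zero _) (Units.ne_zero _),
      ih.1, ih.2.1, ih.2.2, a1, a2, a3]
    exact ⟨rfl, one_mul _, by push_cast; ring⟩
  | pred n ih =>
    rw [show -(n : ℤ) = -n - 1 + 1 by ring, zpow_add_one, Units.val_mul, Nm_mul, AA_mul,
      rho_mul (Units.ne_zero _) (Units.ne_zero _), a1, a2, a3] at ih
    push_cast at ih ⊢
    exact ⟨by simpa using ih.1, by simpa using ih.2.1, by linarith [ih.2.2]⟩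

def Win (v : ℝ) : Set O := {α | α ≠ 0 ∧ rho α ∈ Ioc v (v + 2 * LL)}

lemma win_iff (v : ℝ) {β : O} (h : β ≠ 0) (j : ℤ) : (uu ^ j : Oˣ) * β ∈ Win v ↔
    j = -toIocDiv (mul_pos two_pos LL_pos) v (rho β) := by
  rw [eq_neg_iff_add_eq_zero, add_comm, ← eq_neg_iff_add_eq_zero, toIocDiv_eq_iff]
  simp only [Win, mem_ofPred_eq, rho_mul (Units.ne_zero _) h, (upow j).2.2,
    O_mul_ne (Units.ne_zero _) h, ne_eq, not_false_eq_true, true_and, zsmul_eq_mul]
  rw [iff_eq_eq]; congr 1; push_cast; ring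

theorem unfold {Φ : O → ℂ} (h0 : Φ 0 = 0) {S : ℂ} (h : HasSum Φ S) (v : ℝ) :
    HasSum (fun x : O × ℤ => (Win v).indicator (fun β => Φ ((uu ^ x.2 : Oˣ) * β)) x.1) S := by
  set J := fun α => toIocDiv (mul_pos two_pos LL_pos) v (rho α) with hJ
  have c : ∀ (j : ℤ) (α : O), (uu ^ j : Oˣ) * ((uu ^ (-j) : Oˣ) * α) = α := fun j α => by
    rw [← mul_assoc, ← Units.val_mul, ← zpow_add]; simp
  have inj : Function.Injective fun α : O => (((uu ^ (-J α) : Oˣ) * α, J α) : O × ℤ) :=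
    Function.LeftInverse.injective (g := fun x : O × ℤ => (uu ^ x.2 : Oˣ) * x.1) fun α => c _ _
  refine (inj.hasSum_iff ?_).mp (h.congr_fun fun α => ?_)
  · rintro ⟨β, j⟩ hx
    refine indicator_of_notMem (fun hβ => hx ⟨(uu ^ j : Oˣ) * β, ?_⟩) _
    have c' := c (-j) β
    rw [neg_neg] at c'
    have := (win_iff v (O_mul_ne (Units.ne_zero (uu ^ j)) hβ.1) (-j)).mp (by rw [c']; exact hβ)
    have e : J ((uu ^ j : Oˣ) * β) = j := (neg_injective this).symm
    simp only [e, c']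
  · by_cases hα : α = 0
    · simp [hα, h0, Win]
    · rw [Function.comp, indicator_of_mem ((win_iff v hα (-J α)).mpr rfl), c]

theorem win_ind {F : O → ℂ} (hF : ∀ (j : ℤ) (α : O), F ((uu ^ j : Oˣ) * α) = F α) {S : ℂ}
    {v : ℝ} (h : HasSum ((Win v).indicator F) S) (v' : ℝ) : HasSum ((Win v').indicator F) S := by
  refine (unfold (by simp [Win]) h v').prod_fiberwise fun β => ?_
  by_cases hβ : β ∈ Win v'
  · simp only [indicator_of_mem hβ]
    have := hasSum_single (f := fun j : ℤ => (Win v).indicator F ((uu ^ j : Oˣ) * β)) _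
      fun j hj => indicator_of_notMem (fun e => hj ((win_iff v hβ.1 j).mp e)) _
    rwa [indicator_of_mem ((win_iff v hβ.1 _).mpr rfl), hF] at this
  · simp only [indicator_of_notMem hβ]; exact hasSum_zero

lemma cosh_eq {α : O} (h : α ≠ 0) (u : ℝ) :
    e1 α ^ 2 * rexp u + e2 α ^ 2 * rexp (-u) = 2 * |(Nm α : ℝ)| * Real.cosh (u + rho α) := by
  have a := abs_pos.mpr (e1_ne h)
  have b := abs_pos.mpr (e2_ne h)
  rw [Nm_cast, abs_mul, Real.cosh_eq, rho, ← sq_abs (e1 α), ← sq_abs (e2 α), neg_add, neg_sub,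
    Real.exp_add, Real.exp_add, Real.exp_sub, Real.exp_sub, exp_log a, exp_log b]
  field_simp

lemma exp_le3 {u : ℝ} (h : |u| ≤ LL) : rexp u ≤ 3 ∧ rexp (-u) ≤ 3 := by
  have := exp_LL
  have := goldenRatio_lt_two
  have := Real.exp_le_exp.mpr (abs_le.mp h).2
  have := Real.exp_le_exp.mpr (show -u ≤ LL by linarith [(abs_le.mp h).1])
  constructor <;> linarith

lemma win_bd {α : O} (h : α ∈ Win (-LL)) : (α.re : ℝ) ^ 2 + α.im ^ 2 ≤ 6 * |(Nm α : ℝ)| := by
  have a1 := cosh_eq h.1 0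
  have a2 := exp_le3 (u := rho α) (abs_le.mpr ⟨h.2.1.le, by linarith [h.2.2]⟩)
  rw [zero_add, Real.cosh_eq, neg_zero, Real.exp_zero, mul_one, mul_one, sq_sum] at a1
  nlinarith [abs_nonneg (Nm α : ℝ), sq_nonneg ((α.re : ℝ) + α.im), sq_nonneg (α.im : ℝ)]

lemma win_summ {σ : ℝ} (h : 1 < σ) :
    Summable ((Win (-LL)).indicator fun α => |(Nm α : ℝ)| ^ (-σ)) := by
  have := ((EisensteinSeries.summable_one_div_norm_rpow (k := 2 * σ) (by linarith)).comp_injective
    (QuadraticAlgebra.linearEquivTuple (1 : ℤ) 1).injective).mul_left (6 ^ σ)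
  refine this.of_nonneg_of_le (fun α => indicator_nonneg (fun _ _ => by positivity) _) fun α => ?_
  by_cases hα : α ∈ Win (-LL)
  · rw [indicator_of_mem hα, Function.comp]
    set x := QuadraticAlgebra.linearEquivTuple (1 : ℤ) 1 α with hx
    have x0 : 0 < ‖x‖ := norm_pos_iff.mpr ((LinearEquiv.map_ne_zero_iff _).mpr hα.1)
    have x1 : ‖x‖ ^ 2 ≤ 6 * |(Nm α : ℝ)| := by
      refine le_trans ?_ (win_bd hα)
      rw [EisensteinSeries.norm_eq_max_natAbs]
      simp only [hx, QuadraticAlgebra.linearEquivTuple_apply, Matrix.cons_val_zero,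
        Matrix.cons_val_one, Nat.cast_max, Nat.cast_natAbs, Int.cast_abs]
      rcases le_total |(α.re : ℝ)| |(α.im : ℝ)| with c | c
      · rw [max_eq_right c, sq_abs]; nlinarith
      · rw [max_eq_left c, sq_abs]; nlinarith
    calc _ ≤ (‖x‖ ^ 2 / 6) ^ (-σ) :=
          rpow_le_rpow_of_nonpos (by positivity) (by linarith) (by linarith)
      _ = _ := by
        rw [div_rpow (by positivity) (by norm_num), ← rpow_natCast, ← rpow_mul x0.le, rpow_neg
          (show (0 : ℝ) ≤ 6 by norm_num), div_inv_eq_mul, mul_comm]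
        norm_num
  · rw [indicator_of_notMem hα, Function.comp]; positivity

end Pool.Agent.H46.Ms
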