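import Pool.Agent.H46.Ms.Ring

set_option autoImplicit false

namespace Pool.Agent.H46.Ms

def lgN (k : ℕ) : ℤ := match k % 5 with
  | 0 => 0
  | 1 => 1
  | 4 => 1
  | _ => -1

def WN (a b c d k j : ℕ) : ℤ := if c = 0 then lgN k * lgN (j + 4 * b * d * k * k) else
  lgN c * ((if c * j % 5 = (a + 2 * k + d * k * k) % 5 then 1 else 0) -
    (if c * j % 5 = (4 * a + 4 * k + d * k * k) % 5 then 1 else 0) -
    (if c * j % 5 = (4 * a + k + d * k * k) % 5 then 1 else 0) +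
    (if c * j % 5 = (a + 3 * k + d * k * k) % 5 then 1 else 0))

def Wc (a b c d k j : ZMod 5) : ℤ := WN a.val b.val c.val d.val k.val j.val

lemma u5 {M : Type*} [AddCommMonoid M] (f : ZMod 5 → M) :
    ∑ j, f j = f 0 + f 1 + f 2 + f 3 + f 4 := Fin.sum_univ_five f

lemma Wc_0 : ∀ a d k j : ZMod 5, Wc a 0 0 d k j = lg k * lg j := by decide +kernel

lemma Wc_T : ∀ a b c d : ZMod 5, a * d - b * c = 1 → ∀ k j,
    Wc a (a + b) c (c + d) k (j + k * k) = Wc a b c d k j := by decide +kernel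

def dS (a b c d k j : ZMod 5) : ℤ :=
  Wc b (-a) d (-c) k (j - 1) - Wc b (-a) d (-c) k (j - 2) - Wc b (-a) d (-c) k (j - 3) +
    Wc b (-a) d (-c) k (j - 4) - (Wc a b c d 0 j + Wc a b c d 1 (j + 2 * k) +
    Wc a b c d 2 (j + 4 * k) + Wc a b c d 3 (j + k) + Wc a b c d 4 (j + 3 * k))

lemma dS_c : ∀ a b c d : ZMod 5, a * d - b * c = 1 → ∀ k j, dS a b c d k j = dS a b c d k 0 := by
  decide +kernel

lemma Wc_S (a b c d : ZMod 5) (h : a * d - b * c = 1) (k j : ZMod 5) :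
    ∑ i, lg i * Wc b (-a) d (-c) k (j - i) - ∑ h, Wc a b c d h (j + 2 * h * k) =
      dS a b c d k 0 := by
  rw [← dS_c a b c d h k j, u5, u5, show lg 0 = 0 by decide, show lg 1 = 1 by decide,
    show lg 2 = -1 by decide, show lg 3 = -1 by decide, show lg 4 = 1 by decide,
    show (2 * 0 : ZMod 5) = 0 by decide, show (2 * 1 : ZMod 5) = 2 by decide,
    show (2 * 2 : ZMod 5) = 4 by decide, show (2 * 3 : ZMod 5) = 1 by decide,
    show (2 * 4 : ZMod 5) = 3 by decide, dS]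
  simp only [zero_mul, add_zero, one_mul]
  ring

end Pool.Agent.H46.Ms
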