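import Pool.Agent.H46.Ms.Tab
import Pool.Agent.H46.Ms.Poisson

set_option autoImplicit false

namespace Pool.Agent.H46.Ms

open Complex Real Set goldenRatio MeasureTheory ZMod
open scoped MatrixGroups UpperHalfPlane

instance : Countable O := (QuadraticAlgebra.equivProd (1 : ℤ) 1).injective.countable

noncomputable def wt (α : O) (u : ℝ) : ℝ := e1 α ^ 2 * rexp u + e2 α ^ 2 * rexp (-u)
noncomputable def E5 (α : O) (z : ℂ) (u : ℝ) : ℂ :=
  cexp (2 * π * I * Nm α * z.re / 5 - π * z.im * wt α u / 5)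
noncomputable def Th (v : ZMod 5 → ℂ) (z : ℂ) (u : ℝ) : ℂ := ∑' α, v (hh α) * E5 α z u
noncomputable def GG (v : ZMod 5 → ℂ) (z : ℂ) : ℂ :=
  √z.im * ∫ u in Ioc (-LL) LL, Th v z u * cexp (I * tt * u)
noncomputable def Sop (v : ZMod 5 → ℂ) (k : ZMod 5) : ℂ :=
  1 / √5 * ∑ h, v h * stdAddChar (-2 * h * k)
noncomputable def Top (v : ZMod 5 → ℂ) (k : ZMod 5) : ℂ := stdAddChar (k ^ 2) * v k

lemma gs {c : ℝ} (hc : 0 < c) : Summable fun α : O => rexp (-c * (α.re ^ 2 + α.im ^ 2)) := by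
  have h := summ1 (a := c / π) (by positivity) 0
  refine ((h.mul_of_nonneg h (fun _ => (exp_pos _).le) (fun _ => (exp_pos _).le)).comp_injective
    (QuadraticAlgebra.equivProd (1 : ℤ) 1).injective).congr fun α => ?_
  simp only [Function.comp, QuadraticAlgebra.equivProd, Equiv.coe_fn_mk, ← Real.exp_add]
  congr 1; field_simp; ring

lemma norm_E5 (α : O) {z : ℂ} (hz : 0 < z.im) {u : ℝ} (hu : u ∈ Ioc (-LL) LL) :
    ‖E5 α z u‖ ≤ rexp (-(z.im / 5) * (α.re ^ 2 + α.im ^ 2)) := by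
  rw [E5, Complex.norm_exp]
  refine Real.exp_le_exp.mpr ?_
  have e : (2 * π * I * Nm α * z.re / 5 - π * z.im * wt α u / 5 : ℂ).re =
      -(π * z.im * wt α u / 5) := by simp
  obtain ⟨a, b⟩ := exp_le3 (abs_le.mpr ⟨hu.1.le, hu.2⟩)
  have c : rexp u * rexp (-u) = 1 := by rw [← Real.exp_add]; simp
  have a' : 1 ≤ 3 * rexp u := by nlinarith [exp_pos u]
  have b' : 1 ≤ 3 * rexp (-u) := by nlinarith [exp_pos (-u)]
  have d : (α.re : ℝ) ^ 2 + α.im ^ 2 ≤ 3 * wt α u := by
    have := sq_sum α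
    unfold wt
    nlinarith [sq_nonneg (e1 α), sq_nonneg (e2 α), sq_nonneg ((α.re : ℝ) + α.im),
      sq_nonneg (α.im : ℝ)]
  have f : 0 ≤ wt α u := by unfold wt; positivity
  rw [e]
  nlinarith [mul_le_mul_of_nonneg_left d hz.le, mul_nonneg hz.le f, pi_gt_three]

lemma Th_summ (g : O → ℂ) (K : ℝ) (hg : ∀ α, ‖g α‖ ≤ K) {z : ℂ} (hz : 0 < z.im) {u : ℝ}
    (hu : u ∈ Ioc (-LL) LL) : Summable fun α => g α * E5 α z u :=
  ((gs (c := z.im / 5) (by positivity)).mul_left K).of_norm_bounded fun α => by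
    rw [norm_mul]
    exact mul_le_mul (hg α) (norm_E5 α hz hu) (norm_nonneg _) ((norm_nonneg _).trans (hg α))

lemma ThS1 (h : ℤ) {z : ℂ} (hz : 0 < z.im) (u : ℝ) :
    ∑' α, (if hh α = h then 1 else 0) * E5 α z u =
      1 / (√5 * ‖z‖) * ∑' β, stdAddChar (-2 * (h : ZMod 5) * hh β) * E5 β (-z⁻¹) u := by
  have z0 : z ≠ 0 := by rintro rfl; simp at hz
  have n0 : 0 < ‖z‖ := norm_pos_iff.mpr z0
  have c : rexp u * rexp (-u) = 1 := by rw [← Real.exp_add]; simp
  have s0 := exp_pos u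
  have s1 := exp_pos (-u)
  have g1 := goldenRatio_sq
  have g2 := goldenConj_sq
  have g3 := goldenRatio_add_goldenConj
  have g4 := goldenRatio_mul_goldenConj
  have nz : ‖z‖ ^ 2 = z.re ^ 2 + z.im ^ 2 := by rw [Complex.sq_norm, normSq_apply]; ring
  have k : (rexp u + rexp (-u)) * (φ ^ 2 * rexp u + ψ ^ 2 * rexp (-u)) -
      (φ * rexp u + ψ * rexp (-u)) ^ 2 = 5 := by
    linear_combination (φ - ψ) ^ 2 * c + g1 + g2 + g3 - 2 * g4
  have P := poisson2 (A := (z.im * (rexp u + rexp (-u)) : ℝ) + 2 * I * z.re)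
    (B := (z.im * (φ * rexp u + ψ * rexp (-u)) : ℝ) + I * z.re)
    (C := (z.im * (φ ^ 2 * rexp u + ψ ^ 2 * rexp (-u)) : ℝ) - 2 * I * z.re)
    ⟨by simp only [add_re, ofReal_re, mul_re, mul_im, I_re, I_im, ofReal_im]; norm_num; positivity,
    by simp only [add_re, sub_re, ofReal_re, mul_re, mul_im, I_re, I_im, ofReal_im]; norm_num
       rw [← g1, ← g2]
       nlinarith [mul_pos hz hz]⟩ (r := √5 * ‖z‖) (by positivity) (by
      have k2 : (√5 * ‖z‖) ^ 2 = 5 * (z.re ^ 2 + z.im ^ 2) := by rw [mul_pow, nz]; norm_num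
      have k3 : φ ^ 2 - φ - 1 = 0 := by linarith
      have k4 : ψ ^ 2 - ψ - 1 = 0 := by linarith
      have k' := congrArg ofReal k
      have k2' := congrArg ofReal k2
      have k3' := congrArg ofReal k3
      have k4' := congrArg ofReal k4
      push_cast at k' k2' k3' k4' ⊢
      linear_combination (z.im : ℂ) ^ 2 * k' - k2' - 5 * (z.re : ℂ) ^ 2 * I_mul_I +
        2 * I * z.re * z.im * (cexp u * k3' + cexp (-u) * k4')) (-h / 5) (2 * h / 5)
  have inj : Function.Injective fun x : ℤ × ℤ => (⟨h + 2 * x.2 - x.1, 2 * x.1 + x.2⟩ : O) := by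
    intro x y e
    simp only [QuadraticAlgebra.mk.injEq] at e
    ext <;> omega
  let eq : ℤ × ℤ ≃ O := ⟨fun x => ⟨-x.2, x.1⟩, fun β => (β.im, -β.re), fun x => by simp,
    fun β => by simp⟩
  rw [← inj.tsum_eq, ← eq.tsum_eq]
  · push_cast at P
    refine Eq.trans (tsum_congr fun x => ?_) (P.trans (congrArg _ (tsum_congr fun x => ?_)))
    · have a0 : hh ⟨h + 2 * x.2 - x.1, 2 * x.1 + x.2⟩ = h := by
        simp only [hh]; push_cast; linear_combination (x.1 + x.2 : ZMod 5) * z5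
      have a1 : wt ⟨h + 2 * x.2 - x.1, 2 * x.1 + x.2⟩ u =
          5 * ((x.1 - h / 5 + (x.2 + 2 * h / 5) * φ) ^ 2 * rexp u +
            (x.1 - h / 5 + (x.2 + 2 * h / 5) * ψ) ^ 2 * rexp (-u)) := by
        have b : ∀ t : ℝ, t ^ 2 = t + 1 → ((h + 2 * x.2 - x.1 : ℤ) + (2 * x.1 + x.2 : ℤ) * t) ^ 2 =
            5 * (x.1 - h / 5 + (x.2 + 2 * h / 5) * t) ^ 2 := fun t ht => by
          push_cast
          linear_combination ((2 * x.1 + x.2 : ℝ) ^ 2 - 5 * (x.2 + 2 * h / 5) ^ 2) * ht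
        simp only [wt, e1, e2, b _ g1, b _ g2]; ring
      rw [if_pos a0, one_mul, E5, a1]
      simp only [Nm]; push_cast
      congr 1; ring
    · have a0 : (-2 * h * hh (eq x) : ZMod 5) = ((h * (2 * x.2 - x.1) : ℤ) : ZMod 5) := by
        simp only [hh, eq, Equiv.coe_fn_mk]; push_cast; linear_combination (-h * x.1 : ZMod 5) * z5
      have n1 : (z.re : ℂ) ^ 2 + z.im ^ 2 ≠ 0 := by
        rw [← ofReal_pow, ← ofReal_pow, ← ofReal_add, ← nz]; exact_mod_cast (pow_pos n0 2).ne'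
      have k2 : (√5 * ‖z‖ : ℂ) ^ 2 = 5 * (z.re ^ 2 + z.im ^ 2) := by
        rw [mul_pow]; norm_cast; rw [nz]; norm_num
      rw [a0, stdAddChar_coe, E5, ← Complex.exp_add, k2]
      simp only [wt, e1, e2, Nm, eq, Equiv.coe_fn_mk, neg_re, neg_im, inv_re, inv_im, normSq_apply,
        ← pow_two]
      push_cast
      congr 1; field_simp; ring
  · intro α hα
    have : hh α = h := by by_contra c; simp [c] at hα
    have : ((α.re + 3 * α.im - h : ℤ) : ZMod 5) = 0 := by
      rw [hh] at this; push_cast; rw [this, sub_self]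
    obtain ⟨k, hk⟩ := (ZMod.intCast_zmod_eq_zero_iff_dvd _ 5).mp this
    exact ⟨(α.im - k, 2 * k - α.im), by ext <;> simp only <;> omega⟩

lemma ThS (v : ZMod 5 → ℂ) {z : ℂ} (hz : 0 < z.im) {u : ℝ} (hu : u ∈ Ioc (-LL) LL) :
    Th v z u = 1 / ‖z‖ * Th (Sop v) (-z⁻¹) u := by
  have z0 : z ≠ 0 := by rintro rfl; simp at hz
  have hz' : 0 < (-z⁻¹).im := by
    have := normSq_pos.mpr z0
    simp only [neg_im, inv_im, neg_div, neg_neg]; positivity
  calc _ = ∑' α, ∑ k, v k * ((if hh α = k then 1 else 0) * E5 α z u) :=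
        tsum_congr fun α => by simp
    _ = ∑ k, v k * (1 / (√5 * ‖z‖) * ∑' β, stdAddChar (-2 * k * hh β) * E5 β (-z⁻¹) u) := by
        rw [Summable.tsum_finsetSum fun k _ => (Th_summ _ 1 (fun α => by split_ifs <;> simp) hz
          hu).mul_left _]
        refine Finset.sum_congr rfl fun k _ => ?_
        obtain ⟨h, rfl⟩ := ZMod.intCast_surjective k
        rw [tsum_mul_left, ThS1 h hz]
    _ = _ := by
        simp only [Th, Sop, ← tsum_mul_left]
        rw [← Summable.tsum_finsetSum fun k _ => ((Th_summ _ 1 (fun α => by simp) hz'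
          hu).mul_left _).mul_left _]
        refine tsum_congr fun α => ?_
        simp only [Finset.mul_sum, Finset.sum_mul]
        exact Finset.sum_congr rfl fun k _ => by ring

lemma GG_S (v : ZMod 5 → ℂ) {z : ℂ} (hz : 0 < z.im) : GG v z = GG (Sop v) (-z⁻¹) := by
  have z0 : z ≠ 0 := by rintro rfl; simp at hz
  have e : √(-z⁻¹).im = √z.im * (1 / ‖z‖) := by
    simp only [neg_im, inv_im, neg_div, neg_neg, normSq_eq_norm_sq]
    rw [sqrt_div hz.le, sqrt_sq (norm_nonneg _)]; ring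
  rw [GG, GG, e, setIntegral_congr_fun measurableSet_Ioc fun u hu => by rw [ThS v hz hu, mul_assoc],
    integral_const_mul]
  push_cast; ring

lemma GG_T (v : ZMod 5 → ℂ) (z : ℂ) : GG v (1 + z) = GG (Top v) z := by
  have : ∀ u, Th v (1 + z) u = Th (Top v) z u := fun u => tsum_congr fun α => by
    rw [Top, ← Nm_hh, stdAddChar_coe, E5, E5, mul_right_comm (cexp _), ← Complex.exp_add,
      mul_comm (v _)]
    simp only [add_re, add_im, one_re, one_im, zero_add]
    push_cast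
    congr 2; ring
  simp [GG, this]

lemma sum0 : ∑ j : ZMod 5, stdAddChar j = 0 :=
  AddChar.sum_eq_zero_of_ne_one (by
    simpa using (isPrimitive_stdAddChar 5) (a := 1) (by decide))

lemma gauss5 : ∑ j : ZMod 5, lg j * stdAddChar j = √5 := by
  have s := sum0
  have c : (stdAddChar (1 : ZMod 5) + stdAddChar (4 : ZMod 5) : ℂ) = (√5 - 1) / 2 := by
    have a1 := stdAddChar_coe (N := 5) 1
    have a2 := stdAddChar_coe (N := 5) (-1)
    rw [show ((-1 : ℤ) : ZMod 5) = 4 by decide] at a2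
    have a3 : Real.cos (2 * (π / 5)) = (√5 - 1) / 4 := by
      rw [Real.cos_two_mul, cos_pi_div_five]
      linear_combination (1 / 8 : ℝ) * sq_sqrt (show (0 : ℝ) ≤ 5 by norm_num)
    have a4 := congrArg ofReal a3
    push_cast at a1 a2 a4
    rw [a1, a2]
    have a5 := Complex.two_cos (x := 2 * (π / 5))
    rw [a4] at a5
    convert a5.symm using 1
    · congr 2 <;> ring
    · ring
  rw [u5] at s ⊢
  rw [show lg 0 = 0 by decide, show lg 1 = 1 by decide, show lg 2 = -1 by decide,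
    show lg 3 = -1 by decide, show lg 4 = 1 by decide]
  rw [AddChar.map_zero_eq_one] at s
  push_cast
  linear_combination 2 * c - s

noncomputable def WW (γ : SL(2, ℤ)) (k : ZMod 5) : ℂ :=
  1 / √5 * ∑ j, Wc (γ 0 0) (γ 0 1) (γ 1 0) (γ 1 1) k j * stdAddChar j

lemma det5 (γ : SL(2, ℤ)) : ((γ 0 0 : ZMod 5) * γ 1 1 - γ 0 1 * γ 1 0) = 1 := by
  have := γ.det_coe
  rw [Matrix.det_fin_two] at this
  exact_mod_cast congrArg (Int.cast : ℤ → ZMod 5) this

lemma WW_T (γ : SL(2, ℤ)) : WW (γ * ModularGroup.T) = Top (WW γ) := by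
  funext k
  simp only [WW, Top, Matrix.SpecialLinearGroup.coe_mul, ModularGroup.coe_T, Matrix.mul_apply,
    Fin.sum_univ_two]
  simp only [Matrix.of_apply, Matrix.cons_val', Matrix.cons_val_zero, Matrix.cons_val_one,
    Matrix.cons_val_fin_one, mul_one, mul_zero, add_zero, Int.cast_add]
  rw [pow_two, ← Equiv.sum_comp (Equiv.addRight (k * k)), mul_left_comm, Finset.mul_sum _ _ (stdAddChar _)]
  simp only [Equiv.coe_addRight, Wc_T _ _ _ _ (det5 γ), AddChar.map_add_eq_mul]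
  congr 1
  exact Finset.sum_congr rfl fun j _ => by ring

lemma s5 : (√5 : ℂ) ≠ 0 := by exact_mod_cast (sqrt_pos.mpr (by norm_num)).ne'

lemma WW_S (γ : SL(2, ℤ)) : WW (γ * ModularGroup.S) = Sop (WW γ) := by
  funext k
  simp only [WW, Sop, Matrix.SpecialLinearGroup.coe_mul, ModularGroup.coe_S, Matrix.mul_apply,
    Fin.sum_univ_two]
  simp only [Matrix.of_apply, Matrix.cons_val', Matrix.cons_val_zero, Matrix.cons_val_one,
    Matrix.cons_val_fin_one, mul_one, mul_zero, add_zero, zero_add, mul_neg, Int.cast_neg]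
  have h := Wc_S _ _ _ _ (det5 γ) k
  generalize ((γ 0 0 : ℤ) : ZMod 5) = a at *
  generalize ((γ 0 1 : ℤ) : ZMod 5) = b at *
  generalize ((γ 1 0 : ℤ) : ZMod 5) = c at *
  generalize ((γ 1 1 : ℤ) : ZMod 5) = d at *
  have e1 : √5 * ∑ j, (Wc b (-a) d (-c) k j : ℂ) * stdAddChar j =
      ∑ j, (∑ i, lg i * Wc b (-a) d (-c) k (j - i) : ℤ) * stdAddChar j := by
    push_cast
    simp only [Finset.sum_mul]
    rw [← gauss5, Finset.sum_mul, Finset.sum_comm]
    refine Finset.sum_congr rfl fun i _ => ?_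
    rw [Finset.mul_sum, ← Equiv.sum_comp (Equiv.subRight i)]
    refine Finset.sum_congr rfl fun j _ => ?_
    rw [show stdAddChar j = stdAddChar i * stdAddChar (j - i) by
      rw [← AddChar.map_add_eq_mul, add_sub_cancel]]
    simp only [Equiv.subRight_apply]; ring
  have e2 : ∑ h, (∑ j, (Wc a b c d h j : ℂ) * stdAddChar j) * stdAddChar (-2 * h * k) =
      ∑ j, (∑ h, Wc a b c d h (j + 2 * h * k) : ℤ) * stdAddChar j := by
    push_cast
    simp only [Finset.sum_mul]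
    rw [Finset.sum_comm (s := Finset.univ) (f := fun j h => (Wc a b c d h (j + 2 * h * k) : ℂ) * _)]
    refine Finset.sum_congr rfl fun h _ => ?_
    rw [← Equiv.sum_comp (Equiv.addRight (2 * h * k))]
    refine Finset.sum_congr rfl fun j _ => ?_
    rw [mul_assoc, ← AddChar.map_add_eq_mul]
    simp only [Equiv.coe_addRight]
    congr 2; ring
  have e3 : ∑ j, (∑ i, lg i * Wc b (-a) d (-c) k (j - i) : ℤ) * stdAddChar j -
      ∑ j, (∑ h, Wc a b c d h (j + 2 * h * k) : ℤ) * stdAddChar j = 0 := by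
    simp only [← Finset.sum_sub_distrib, ← sub_mul, ← Int.cast_sub, h]
    rw [← Finset.mul_sum, sum0, mul_zero]
  simp only [mul_assoc (1 / √5 : ℂ), ← Finset.mul_sum]
  rw [e2, ← sub_eq_zero.mp e3, ← e1]
  have := s5
  field_simp

noncomputable def v0 (k : ZMod 5) : ℂ := lg k

lemma WW_0 (γ : SL(2, ℤ)) (hb : ((γ 0 1 : ℤ) : ZMod 5) = 0) (hc : ((γ 1 0 : ℤ) : ZMod 5) = 0) :
    WW γ = v0 := by
  funext k
  simp only [WW, hb, hc, Wc_0, Int.cast_mul, mul_assoc, ← Finset.mul_sum,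
    gauss5, v0]
  have := s5
  field_simp

theorem GG_W (γ : SL(2, ℤ)) : ∀ τ : ℍ, GG v0 (γ • τ : ℍ) = GG (WW γ) τ := by
  have k : ∀ s ∈ ({ModularGroup.S, ModularGroup.T} : Set SL(2, ℤ)), ∀ (g : SL(2, ℤ)) (τ : ℍ),
      GG (WW g) (s • τ : ℍ) = GG (WW (g * s)) τ := by
    rintro s (rfl | rfl) g τ
    · rw [GG_S _ (ModularGroup.S • τ).im_pos, WW_S, UpperHalfPlane.modular_S_smul]
      simp
    · rw [UpperHalfPlane.modular_T_smul, WW_T, ← GG_T]
      simp
  have : γ ∈ Subgroup.closure {ModularGroup.S, ModularGroup.T} := by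
    simp [SpecialLinearGroup.SL2Z_generators]
  induction this using Subgroup.closure_induction_right with
  | one => intro τ; rw [one_smul, WW_0 1 (by simp) (by simp)]
  | mul_right x _ y hy ih => intro τ; rw [mul_smul, ih, k y hy]
  | mul_inv_cancel x _ y hy ih =>
    intro τ
    have := k y hy (x * y⁻¹) (y⁻¹ • τ)
    rw [smul_inv_smul, inv_mul_cancel_right] at this
    rw [mul_smul, ih, this]

theorem GG_mob {a b c d : ℤ} (h : a * d - b * c = 1) : ∃ v : ZMod 5 → ℂ,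
    ((5 : ℤ) ∣ b → (5 : ℤ) ∣ c → v = v0) ∧
    ∀ z : ℂ, 0 < z.im → GG v0 ((a * z + b) / (c * z + d)) = GG v z := by
  let γ : SL(2, ℤ) := ⟨!![a, b; c, d], by rw [Matrix.det_fin_two_of, h]⟩
  refine ⟨WW γ, fun hb hc => WW_0 γ ((ZMod.intCast_zmod_eq_zero_iff_dvd _ 5).mpr hb)
    ((ZMod.intCast_zmod_eq_zero_iff_dvd _ 5).mpr hc), fun z hz => ?_⟩
  have := GG_W γ ⟨z, hz⟩
  rw [UpperHalfPlane.coe_specialLinearGroup_apply] at this
  simpa [γ] using this

theorem GG_fricke {z : ℂ} (hz : 0 < z.im) : GG v0 z = -GG v0 (-z⁻¹) := by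
  have : Sop v0 = -v0 := by
    have k : ∀ k j : ZMod 5, Wc 0 (-1) 1 0 k j = -lg k * lg j := by decide +kernel
    rw [← WW_0 1 (by simp) (by simp), ← WW_S, WW_0 1 (by simp) (by simp), one_mul]
    funext j
    have := s5
    simp [WW, ModularGroup.coe_S, k, mul_assoc, ← Finset.mul_sum, gauss5, v0]
    field_simp
  rw [GG_S v0 hz, this]
  simp [GG, Th, tsum_neg, integral_neg]

lemma GG_has (v : ZMod 5 → ℂ) {z : ℂ} (hz : 0 < z.im) :
    HasSum (fun α => ∫ u in Ioc (-LL) LL, v (hh α) * E5 α z u * cexp (I * tt * u))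
      (∫ u in Ioc (-LL) LL, Th v z u * cexp (I * tt * u)) ∧
    ∀ α, ‖∫ u in Ioc (-LL) LL, v (hh α) * E5 α z u * cexp (I * tt * u)‖ ≤
      ‖v‖ * rexp (-(z.im / 5) * (α.re ^ 2 + α.im ^ 2)) * volume.real (Ioc (-LL) LL) := by
  have bd : ∀ α, ∀ u ∈ Ioc (-LL) LL, ‖v (hh α) * E5 α z u * cexp (I * tt * u)‖ ≤
      ‖v‖ * rexp (-(z.im / 5) * (α.re ^ 2 + α.im ^ 2)) := fun α u hu => by
    have : ‖cexp (I * tt * u)‖ = 1 := by rw [Complex.norm_exp]; simp
    rw [norm_mul, this, mul_one, norm_mul]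
    exact mul_le_mul (norm_le_pi_norm v _) (norm_E5 α hz hu) (norm_nonneg _) (norm_nonneg _)
  refine ⟨?_, fun α => norm_setIntegral_le_of_norm_le_const measure_Ioc_lt_top (bd α)⟩
  simp only [Th, ← tsum_mul_right]
  refine hasSum_integral_of_summable_integral_norm (fun α => ?_) ?_
  · refine Continuous.integrableOn_Ioc ?_
    unfold E5 wt; fun_prop
  · refine (((gs (c := z.im / 5) (by positivity)).mul_left ‖v‖).mul_right _).of_norm_bounded
      fun α => norm_setIntegral_le_of_norm_le_const measure_Ioc_lt_top fun u hu => ?_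
    rw [norm_norm]; exact bd α u hu

theorem GG_decay : ∃ K : ℝ, ∀ (v : ZMod 5 → ℂ) (z : ℂ), 1 / 5 ≤ z.im →
    ‖GG v z‖ ≤ K * ‖v‖ * rexp (-(z.im / 20)) := by
  have s := gs (c := 1 / 50) (by norm_num)
  refine ⟨20 * ((∑' α : O, rexp (-(1 / 50) * (α.re ^ 2 + α.im ^ 2))) *
    volume.real (Ioc (-LL) LL)), fun v z hz => ?_⟩
  have z0 : 0 < z.im := by linarith
  obtain ⟨h1, h2⟩ := GG_has v z0
  have h3 := h1.norm_le_of_bounded ((s.hasSum.mul_left (‖v‖ * rexp (-(z.im / 10)))).mul_right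
    (volume.real (Ioc (-LL) LL))) fun α => by
    by_cases hα : α = 0
    · have : ∫ u in Ioc (-LL) LL, cexp (I * tt * u) = 0 := by
        have t0 : I * tt ≠ 0 := mul_ne_zero I_ne_zero (by
          have := div_pos pi_pos LL_pos
          exact_mod_cast this.ne')
        have t1 : (tt * LL : ℂ) = π := by exact_mod_cast tt_LL
        rw [← intervalIntegral.integral_of_le (by linarith [LL_pos]), integral_exp_mul_complex t0]
        push_cast
        rw [mul_neg, mul_assoc, t1, mul_comm I, Complex.exp_neg, exp_pi_mul_I]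
        norm_num
      simp only [hα, E5, wt, e1, e2, Nm]
      simp [integral_const_mul, this]
      positivity
    · refine (h2 α).trans ?_
      have a : (1 : ℝ) ≤ α.re ^ 2 + α.im ^ 2 := by
        have : 1 ≤ α.re ^ 2 + α.im ^ 2 := by
          by_contra c
          exact hα (QuadraticAlgebra.ext (by simp only [QuadraticAlgebra.re_zero]; nlinarith)
            (by simp only [QuadraticAlgebra.im_zero]; nlinarith))
        exact_mod_cast this
      rw [mul_assoc ‖v‖ (rexp (-(z.im / 10))), ← Real.exp_add]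
      gcongr
      nlinarith
  have a1 : √z.im ≤ 20 * rexp (z.im / 20) := by
    have := add_one_le_exp (z.im / 20)
    have : √z.im ≤ 1 + z.im := sqrt_le_iff.mpr ⟨by linarith, by nlinarith⟩
    linarith
  rw [GG, norm_mul, norm_real, Real.norm_of_nonneg (sqrt_nonneg _)]
  refine (mul_le_mul a1 h3 (norm_nonneg _) (by positivity)).trans_eq ?_
  rw [show -(z.im / 20) = z.im / 20 + -(z.im / 10) by ring, Real.exp_add]; ring

end Pool.Agent.H46.Ms
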