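import Pool.Agent.H46.Ms.Mel

set_option autoImplicit false

namespace Pool.Agent.H46.Ms

open Complex Real Set MeasureTheory Filter ZMod

variable {q : ℕ} [NeZero q] {χ : DirichletCharacter ℂ q}

omit [NeZero q] in
lemma admχ (χ : DirichletCharacter ℂ q) : Adm μ0 w0 fun x => χ x.1 * c0 x :=
  adm0.mul wt0 (mZ fun n => χ n) 1 fun x =>
    (χ.norm_le_one _).trans (by linarith [wt0.w0 x])

omit [NeZero q] in
lemma sq1 (h2 : χ.IsQuadratic) {x : ZMod q} (hx : IsUnit x) : χ x ^ 2 = 1 := by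
  rcases h2 x with h | h | h
  · exact absurd h (hx.map χ).ne_zero
  · simp [h]
  · simp [h]

lemma tw_eq (h1 : χ.IsPrimitive) (h2 : χ.IsQuadratic) : ∃ g : ℂ, ∀ z : ℂ, 0 < z.im →
    Uc μ0 m0 w0 (fun x => χ x.1 * c0 x) z =
      g * ∑ r : (ZMod q)ˣ, χ r * UU (z + ((r : ZMod q).val / q : ℝ)) := by
  have q0 : (q : ℂ) ≠ 0 := by exact_mod_cast NeZero.ne q
  refine ⟨χ (-1) * gaussSum χ stdAddChar / q, fun z hz => ?_⟩
  rw [Fintype.sum_of_injective Units.val Units.val_injective _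
    (fun r => χ r * UU (z + (r.val / q : ℝ)))
    (fun r hr => by rw [χ.map_nonunit fun ⟨u, e⟩ => hr ⟨u, e⟩, zero_mul]) fun _ => rfl]
  have := (hasSum_sum (s := Finset.univ) fun (r : ZMod q) _ => (F0_has (z := z + (r.val / q : ℝ))
    (by simpa using hz)).mul_left (χ r)).mul_left (χ (-1) * gaussSum χ stdAddChar / q)
  simp only [UU, Uc, add_im, ofReal_im, add_zero, mul_left_comm _ (√z.im : ℂ), ← Finset.mul_sum]
  rw [(Fc_has (fun n => χ n) (admχ χ) hz).unique (this.congr_fun fun n => ?_)]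
  have d := congrFun (dft_dft χ) (-n)
  rw [dft_apply] at d
  simp only [h1.fourierTransform_eq_inv_mul_gaussSum, h2.inv, neg_neg, mul_neg, smul_eq_mul] at d
  have e : ∀ r : ZMod q, cexp (2 * π * I * n * ((r.val / q : ℝ) : ℂ)) = stdAddChar (r * (n : ZMod q)) :=
    fun r => by
      rw [show r * (n : ZMod q) = (((r.val : ℤ) * n : ℤ) : ZMod q) by simp, stdAddChar_coe]
      push_cast; congr 1; ring
  simp only [kk_add, e]
  rw [eq_div_of_mul_eq q0 ((mul_comm _ _).trans d.symm), Finset.mul_sum, Finset.sum_div,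
    Finset.sum_mul, Finset.sum_mul]
  refine Finset.sum_congr rfl fun r _ => ?_
  rw [← neg_one_mul r, map_mul χ]; ring

lemma inv_im {M : ℝ} (hM : 0 < M) {z : ℂ} (hz : 0 < z.im) : 0 < (-(M * z)⁻¹).im := by
  have : M * z ≠ 0 := fun e => by
    have := congrArg im e
    simp [hM.ne', hz.ne'] at this
  have := normSq_pos.mpr this
  simp only [neg_im, Complex.inv_im, neg_div, neg_neg, im_ofReal_mul]; positivity

lemma UU_fricke {z : ℂ} (hz : 0 < z.im) : UU (-(25 * z)⁻¹) = -UU z := by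
  refine mul_left_cancel₀ s5 ?_
  rw [mul_neg, ← UU_eq hz, ← UU_eq (by simpa using inv_im (M := 25) (by norm_num) hz),
    GG_fricke (z := 5 * z) (by simpa using hz), neg_neg]
  congr 1
  rw [mul_inv, mul_inv]; ring

lemma tw_fe (h1 : χ.IsPrimitive) (h2 : χ.IsQuadratic) (h5 : Nat.Coprime 5 q) {z : ℂ}
    (hz : 0 < z.im) : Uc μ0 m0 w0 (fun x => χ x.1 * c0 x) (-((25 * q ^ 2 : ℝ) * z)⁻¹) =
      -χ (-1) * Uc μ0 m0 w0 (fun x => χ x.1 * c0 x) z := by
  have q0 : (q : ℂ) ≠ 0 := by exact_mod_cast NeZero.ne q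
  have q1 : (0 : ℝ) < q := by exact_mod_cast NeZero.pos q
  have z0 : z ≠ 0 := by rintro rfl; simp at hz
  have hz' := inv_im (M := 25 * q ^ 2) (by positivity) hz
  obtain ⟨g, hg⟩ := tw_eq h1 h2
  set c := unitOfCoprime 5 h5 with hc
  rw [hg _ hz, hg _ hz', mul_left_comm, Finset.mul_sum _ _ (-χ (-1)),
    ← Equiv.sum_comp (((Equiv.mulLeft (c * c)).trans (Equiv.inv _)).trans (Equiv.neg _))
      (fun r : (ZMod q)ˣ => -χ (-1) * _)]
  congr 1
  refine Finset.sum_congr rfl fun r _ => ?_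
  simp only [Equiv.trans_apply, Equiv.coe_mulLeft, Equiv.inv_apply, Equiv.neg_apply]
  set r' : (ZMod q)ˣ := -(c * c * r)⁻¹ with hr'
  have e1 : (5 * 5 * r * r' : ZMod q) = -1 := by
    have : (c * c * r * r' : (ZMod q)ˣ) = -1 := by rw [hr', mul_neg, mul_inv_cancel]
    simpa [hc] using congrArg Units.val this
  have e2 : χ r = χ (-1) * χ r' := by
    have a := sq1 h2 c.isUnit
    have b := sq1 h2 r'.isUnit
    rw [← e1, map_mul, map_mul, map_mul]
    simp only [hc, coe_unitOfCoprime, Nat.cast_ofNat] at a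
    linear_combination (-χ r * χ r' ^ 2) * a - χ r * b
  obtain ⟨k, hk⟩ : (q : ℤ) ∣ 25 * (r : ZMod q).val * (r' : ZMod q).val + 1 :=
    (ZMod.intCast_zmod_eq_zero_iff_dvd _ q).mp (by
      push_cast; simp only [natCast_val, cast_id', id]; linear_combination e1)
  set w := z + ((r' : ZMod q).val / q : ℝ) with hw
  have hw0 : 0 < w.im := by simpa [hw] using hz
  have w0 : w ≠ 0 := fun e => by simp [e] at hw0
  have hu := inv_im (M := 25) (by norm_num) hw0
  have det : k * q - (r : ZMod q).val * (25 * (r' : ZMod q).val) = 1 := by linarith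
  have := UU_inv det (by simp) hu (mob_im det hu)
  have hk' : (25 * (r : ZMod q).val * (r' : ZMod q).val + 1 : ℂ) = q * k := by exact_mod_cast hk
  have e3 : (q * w : ℂ) = q * z + (r' : ZMod q).val := by rw [hw]; push_cast; field_simp
  rw [ofReal_ofNat, UU_fricke hw0] at this
  rw [e2, neg_mul, ← mul_neg, ← mul_neg, ← this, mul_assoc]
  congr 3
  push_cast
  have e4 : (25 * ((r' : ZMod q).val : ℂ) * -(25 * w)⁻¹ + q) = q * z / w := by
    field_simp; linear_combination e3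
  rw [e4]
  field_simp
  linear_combination -hk' - 25 * ((r : ZMod q).val : ℂ) * e3

lemma nat_sum {f : ℤ → ℂ} {g : ℕ → ℂ} {c : ℂ} (h : Summable g) (h0 : f 0 = 0)
    (h1 : ∀ n : ℕ, f n = c * g n) (h2 : ∀ n : ℕ, f (-n) = c * g n) :
    ∑' n, f n = 2 * c * ∑' n, g n := by
  have a1 : HasSum (fun n : ℕ => f n) _ := (h.hasSum.mul_left c).congr_fun h1
  have a2 : HasSum (fun n : ℕ => f (-n)) _ := (h.hasSum.mul_left c).congr_fun h2
  have := (summable_int_iff_summable_nat_and_neg.mpr ⟨a1.summable, a2.summable⟩).hasSum.nat_add_neg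
  linear_combination this.unique (a1.add a2) - h0

noncomputable def tm (χ : DirichletCharacter ℂ q) (s : ℂ) (n : ℕ) : ℂ :=
  BB n / 2 * χ n * (n : ℂ) ^ (-s)

omit [NeZero q] in
lemma tm_summ (χ : DirichletCharacter ℂ q) {s : ℂ} (hs : 1 < s.re) :
    Summable fun n => ‖tm χ s n‖ := by
  refine ((BB_summ hs).comp_injective Nat.cast_injective).of_nonneg_of_le (fun _ => norm_nonneg _)
    fun n => ?_
  rcases n.eq_zero_or_pos with rfl | hn
  · simp [tm, BB0]
  rw [tm, norm_mul, norm_mul, norm_natCast_cpow_of_pos hn, norm_div]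
  simp only [Function.comp, neg_re, Int.cast_natCast, Nat.abs_cast, Complex.norm_ofNat]
  gcongr
  nlinarith [χ.norm_le_one n, norm_nonneg (BB n), norm_nonneg (χ n)]

lemma ipow (n : ℕ) (s : ℂ) : ((1 / |((n : ℤ) : ℝ)| : ℝ) : ℂ) ^ s = (n : ℂ) ^ (-s) := by
  simp [inv_cpow _ _ (show (n : ℂ).arg ≠ π by simp [natCast_arg, pi_ne_zero.symm]), cpow_neg]

theorem core (h1 : χ.IsPrimitive) (h2 : χ.IsQuadratic) (h5 : Nat.Coprime 5 q) :
    ∃ L : ℂ → ℂ, Differentiable ℂ L ∧ L (1 / 2) = 0 ∧ ∀ s : ℂ, 1 < s.re →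
      L s = ∑' n, tm χ s n := by
  have q0 : (q : ℂ) ≠ 0 := by exact_mod_cast NeZero.ne q
  have q1 : (0 : ℝ) < q := by exact_mod_cast NeZero.pos q
  have Q0 : (0 : ℝ) < 5 * q := by positivity
  have im : ∀ y : ℝ, (I * y / (5 * q : ℝ) : ℂ).im = y / (5 * q) := fun y => by
    rw [mul_div_assoc, ← ofReal_div]; simp only [mul_im, I_re, I_im, ofReal_re]; ring
  have pt : ∀ y : ℝ, 0 < y → -((25 * q ^ 2 : ℝ) * (I * y / (5 * q : ℝ)) : ℂ)⁻¹ =
      I * (1 / y : ℝ) / (5 * q : ℝ) := fun y hy => by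
    have : (y : ℂ) ≠ 0 := by exact_mod_cast hy.ne'
    push_cast; field_simp; rw [I_sq]; ring
  have sq : ∀ y : ℝ, 0 < y → (√(1 / y / (5 * q)) : ℂ) ≠ 0 ∧
      (√(y / (5 * q)) : ℂ) = y * √(1 / y / (5 * q)) := fun y hy => by
    refine ⟨by exact_mod_cast (sqrt_pos.mpr (show 0 < 1 / y / (5 * (q : ℝ)) by positivity)).ne', ?_⟩
    rw [show y / (5 * q) = y ^ 2 * (1 / y / (5 * q)) by field_simp, sqrt_mul (by positivity),
      sqrt_sq hy.le, ofReal_mul]
  have ng : ∀ n : ℕ, χ ((-n : ℤ) : ZMod q) = χ (-1) * χ n := fun n => by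
    rw [← map_mul]; simp
  rcases χ.even_or_odd with hp | hp
  · obtain ⟨L, d, z, e⟩ := Lfun (κ := fun n => χ n) (admχ χ) Q0 0 1
      (fun n => by simpa using χ.norm_le_one _) fun y hy => by
      have := tw_fe h1 h2 h5 (z := I * y / (5 * q : ℝ)) (by rw [im]; positivity)
      rw [pt y hy, Uc, Uc, im, im, (sq y hy).2, show χ (-1) = 1 from hp] at this
      refine mul_left_cancel₀ (sq y hy).1 (this.trans ?_)
      simp only [Nat.cast_zero, mul_zero, zero_add, rpow_one]; ring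
    refine ⟨fun s => L s / 4, d.div_const _, by simp only [z, zero_div], fun s hs => ?_⟩
    simp only [e s hs, Nat.cast_zero, add_zero]
    rw [nat_sum (c := 2) (tm_summ χ hs).of_norm (by simp [BB0]) (fun n => ?_) fun n => ?_]
    · ring
    · rw [ipow, tm, Int.cast_natCast]; ring
    · rw [ng, show χ (-1) = 1 from hp, BB_neg, Int.cast_neg, abs_neg, ipow, tm]; ring
  · have ad := (admχ χ).dx wt0
    have ef : (fun x : ℤ × ℝ => I * m0 x * (χ x.1 * c0 x)) =
        fun x => (I * (2 * π * x.1 : ℝ) * χ x.1) * c0 x := funext fun x => by rw [m0]; ring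
    have l1 : ∀ z : ℂ, 0 < z.im → HasDerivAt (fun t : ℝ => Uc μ0 m0 w0 (fun x => χ x.1 * c0 x)
        (z + t)) (Uc μ0 m0 w0 (fun x => I * m0 x * (χ x.1 * c0 x)) z) 0 := fun z hz => by
      simpa [Uc] using ((admχ χ).line wt0 z 1 0 (by simpa using hz)).const_mul (√z.im : ℂ)
    rw [ef] at ad l1
    obtain ⟨L, d, z, e⟩ := Lfun (κ := fun n => I * (2 * π * n : ℝ) * χ n) ad Q0 1 (2 * π)
      (fun n => by
        rw [norm_mul, norm_mul, norm_I, norm_real, one_mul, Real.norm_eq_abs, abs_mul,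
          abs_of_pos two_pi_pos, pow_one]
        exact mul_le_of_le_one_right (by positivity) (χ.norm_le_one _)) fun y hy => by
      have y0 : (y : ℂ) ≠ 0 := by exact_mod_cast hy.ne'
      have i1 : 0 < (I * y / (5 * q : ℝ) : ℂ).im := by rw [im]; positivity
      have i2 : 0 < (I * (1 / y : ℝ) / (5 * q : ℝ) : ℂ).im := by rw [im]; positivity
      have D := ((((admχ χ).smoothU wt0).contDiffAt ((isOpen_lt continuous_const
        continuous_im).mem_nhds i2)).differentiableAt (by simp)).hasFDerivAt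
      have a1 := (l1 _ i2).unique (D.comp_hasDerivAt_of_eq 0
        (((hasDerivAt_id (0 : ℝ)).ofReal_comp).const_add _) (by simp))
      have a2 : HasDerivAt (fun t : ℝ => -((25 * q ^ 2 : ℝ) * (I * y / (5 * q : ℝ) + t) : ℂ)⁻¹)
          ((-1 / y ^ 2 : ℝ) • ((1 : ℝ) : ℂ)) 0 := by
        refine ((((hasDerivAt_id (0 : ℝ)).ofReal_comp.const_add _).const_mul _).fun_inv
          ?_).fun_neg.congr_deriv ?_
        · simp [q0, y0]
        · simp only [id, real_smul]; push_cast; field_simp; rw [mul_zero, add_zero, mul_pow, I_sq]; ring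
      have a3 := (l1 _ i1).unique ((D.comp_hasDerivAt_of_eq 0 a2
        (by rw [← pt y hy]; simp)).congr_of_eventuallyEq (Eventually.of_forall fun t => by
          have := tw_fe h1 h2 h5 (z := I * y / (5 * q : ℝ) + t) (by simpa using i1)
          rw [show χ (-1) = -1 from hp, neg_neg, one_mul] at this
          exact this.symm))
      rw [_root_.map_smul, ← a1, Uc, Uc, im, im, (sq y hy).2, real_smul] at a3
      refine mul_left_cancel₀ (sq y hy).1 ?_
      rw [show (2 * (1 : ℕ) + 1 : ℝ) = (3 : ℕ) by norm_num, rpow_natCast]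
      generalize Fc μ0 _ _ _ (I * y / (5 * q : ℝ)) = F1 at *
      generalize Fc μ0 _ _ _ (I * (1 / y : ℝ) / (5 * q : ℝ)) = F2 at *
      generalize (√(1 / y / (5 * q)) : ℂ) = r at *
      push_cast at a3 ⊢
      field_simp at a3
      linear_combination a3
    have := two_pi_I_ne_zero
    refine ⟨fun s => L s / (4 * (2 * π * I)), d.div_const _, by simp only [z, zero_div],
      fun s hs => ?_⟩
    have pw : ∀ n : ℕ, BB n * (n * (n : ℂ) ^ (-(s + 1))) = BB n * n ^ (-s) := fun n => by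
      rcases eq_or_ne n 0 with rfl | hn
      · simp [BB0]
      have : (n : ℂ) ≠ 0 := by exact_mod_cast hn
      rw [neg_add, cpow_add _ _ this, cpow_neg_one]; field_simp
    simp only [e s hs]
    rw [nat_sum (c := 2 * (2 * π * I)) (tm_summ χ hs).of_norm (by simp [BB0]) (fun n => ?_)
      fun n => ?_]
    · field_simp; ring
    · rw [ipow, tm, Int.cast_natCast]; push_cast
      linear_combination (2 * π * I * χ n) * pw n
    · rw [ng, show χ (-1) = -1 from hp, BB_neg, Int.cast_neg, abs_neg, ipow, tm]; push_cast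
      linear_combination (2 * π * I * χ n) * pw n

end Pool.Agent.H46.Ms
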